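import Mathlib

/-!
# The trace form of a semisimple representation
-/

set_option autoImplicit false

namespace Pool.Agent.W401.Gal

open Polynomial Module

/-- An endomorphism of a space of dimension less than the characteristic (or characteristic `0`) all
of whose positive powers have trace zero is nilpotent. -/
lemma isNilpotent_of_trace_pow {k V : Type*} [Field k] [AddCommGroup V] [Module k V]
    [FiniteDimensional k V] (hc : ∀ m : ℕ, 0 < m → m ≤ finrank k V → (m : k) ≠ 0) (T : V →ₗ[k] V)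
    (h : ∀ j : ℕ, LinearMap.trace k V (T ^ (j + 1)) = 0) : IsNilpotent T := by
  have hp0 : minpoly k T ≠ 0 := minpoly.ne_zero (Algebra.IsIntegral.isIntegral T)
  obtain ⟨g, hg, hgd⟩ := Polynomial.exists_eq_pow_rootMultiplicity_mul_and_not_dvd
    (minpoly k T) hp0 0
  rw [C_0, sub_zero] at hg hgd
  set a := rootMultiplicity 0 (minpoly k T)
  have hcop : IsCoprime (X ^ (a + 1)) g := by
    apply IsCoprime.pow_left
    exact (Polynomial.prime_X.irreducible.coprime_iff_not_dvd).2 hgd
  obtain ⟨u, v, huv⟩ := hcop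
  -- the idempotent
  have htr : ∀ q : k[X], LinearMap.trace k V (aeval T (q * X)) = 0 := by
    intro q
    induction q using Polynomial.induction_on' with
    | add p q hp hq => rw [add_mul, map_add, map_add, hp, hq, add_zero]
    | monomial n c =>
      rw [monomial_mul_X, aeval_monomial, ← Algebra.smul_def, map_smul, h n, smul_zero]
  have hmin : aeval T (X ^ a * g) = 0 := by rw [← hg]; exact minpoly.aeval k T
  have hE : IsIdempotentElem (aeval T (u * X ^ (a + 1))) := by
    have h1 : aeval T (u * X ^ (a + 1)) * aeval T (u * X ^ (a + 1)) =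
        aeval T (u * X ^ (a + 1)) - aeval T (v * u * X * (X ^ a * g)) := by
      rw [← map_mul, ← map_sub]
      congr 1
      linear_combination (u * X ^ (a + 1)) * huv
    rw [IsIdempotentElem, h1, map_mul (aeval T) (v * u * X), hmin, mul_zero, sub_zero]
  have hE0 : aeval T (u * X ^ (a + 1)) = 0 := by
    have h3 : LinearMap.trace k V (aeval T (u * X ^ (a + 1))) = 0 := by
      have := htr (u * X ^ a)
      rwa [mul_assoc, ← pow_succ] at this
    have h4 := (LinearMap.IsIdempotentElem.isProj_range _ hE).trace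
    rw [h3] at h4
    by_contra h5
    have h6 : 0 < finrank k (LinearMap.range (aeval T (u * X ^ (a + 1)))) := by
      rw [Nat.pos_iff_ne_zero]
      intro h7
      exact h5 (LinearMap.range_eq_bot.mp (Submodule.finrank_eq_zero.mp h7))
    exact hc _ h6 (Submodule.finrank_le _) h4.symm
  refine ⟨a, ?_⟩
  have h2 : aeval T (X ^ a : k[X]) = aeval T (X ^ a * (u * X ^ (a + 1))) +
      aeval T (v * (X ^ a * g)) := by
    rw [← map_add]
    congr 1
    linear_combination (-X ^ a) * huv
  rw [map_mul, hE0, mul_zero, map_mul, hmin, mul_zero, add_zero] at h2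
  simpa using h2

section
variable {k : Type*} [Field k] {n : ℕ} {G : Type*} [Group G]

/-- A matrix representation is semisimple: every invariant subspace has an invariant complement. -/
def Semis (ρ : G →* GL (Fin n) k) : Prop :=
  ∀ W : Submodule k (Fin n → k), (∀ g, ∀ w ∈ W, (ρ g : Matrix (Fin n) (Fin n) k).mulVec w ∈ W) →
    ∃ W' : Submodule k (Fin n → k),
      (∀ g, ∀ w ∈ W', (ρ g : Matrix (Fin n) (Fin n) k).mulVec w ∈ W') ∧ IsCompl W W'

/-- the span of the image -/
def Sp (ρ : G →* GL (Fin n) k) : Submodule k (Matrix (Fin n) (Fin n) k) :=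
  Submodule.span k (Set.range fun g => (ρ g : Matrix (Fin n) (Fin n) k))

lemma sp_mul {ρ : G →* GL (Fin n) k} {a b : Matrix (Fin n) (Fin n) k} (ha : a ∈ Sp ρ)
    (hb : b ∈ Sp ρ) : a * b ∈ Sp ρ := by
  unfold Sp at *
  induction ha using Submodule.span_induction with
  | mem x hx =>
    obtain ⟨g, rfl⟩ := hx
    induction hb using Submodule.span_induction with
    | mem y hy =>
      obtain ⟨h, rfl⟩ := hy
      refine Submodule.subset_span ⟨g * h, ?_⟩
      simp
    | zero => rw [mul_zero]; exact Submodule.zero_mem _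
    | add x y _ _ hx hy => rw [mul_add]; exact Submodule.add_mem _ hx hy
    | smul c x _ hx => rw [mul_smul_comm]; exact Submodule.smul_mem _ _ hx
  | zero => rw [zero_mul]; exact Submodule.zero_mem _
  | add x y _ _ hx hy => rw [add_mul]; exact Submodule.add_mem _ hx hy
  | smul c x _ hx => rw [smul_mul_assoc]; exact Submodule.smul_mem _ _ hx

lemma sp_one (ρ : G →* GL (Fin n) k) : (1 : Matrix (Fin n) (Fin n) k) ∈ Sp ρ :=
  Submodule.subset_span ⟨1, by simp⟩

/-- the span of the image as an algebra -/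
def SA (ρ : G →* GL (Fin n) k) : Subalgebra k (Matrix (Fin n) (Fin n) k) :=
  { (Sp ρ) with
    mul_mem' := fun ha hb => sp_mul ha hb
    one_mem' := sp_one ρ
    algebraMap_mem' := fun c => by
      rw [Algebra.algebraMap_eq_smul_one]
      exact Submodule.smul_mem _ _ (sp_one ρ)
    zero_mem' := Submodule.zero_mem _ }

lemma mem_SA {ρ : G →* GL (Fin n) k} {a : Matrix (Fin n) (Fin n) k} : a ∈ SA ρ ↔ a ∈ Sp ρ := Iff.rfl

lemma inv_of_inv {ρ : G →* GL (Fin n) k} {W : Submodule k (Fin n → k)}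
    (hW : ∀ g, ∀ w ∈ W, (ρ g : Matrix (Fin n) (Fin n) k).mulVec w ∈ W)
    {a : Matrix (Fin n) (Fin n) k} (ha : a ∈ Sp ρ) {w : Fin n → k} (hw : w ∈ W) :
    a.mulVec w ∈ W := by
  unfold Sp at ha
  induction ha using Submodule.span_induction with
  | mem x hx => obtain ⟨g, rfl⟩ := hx; exact hW g w hw
  | zero => rw [Matrix.zero_mulVec]; exact Submodule.zero_mem _
  | add x y _ _ hx hy => rw [Matrix.add_mulVec]; exact Submodule.add_mem _ hx hy
  | smul c x _ hx => rw [Matrix.smul_mulVec]; exact Submodule.smul_mem _ _ hx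

/-- minimal invariant subspaces: if `a ≠ 0` in the span then there are `b` in the span and `w ≠ 0`
with `b a w = w` -/
lemma exists_fix {ρ : G →* GL (Fin n) k} (hρ : Semis ρ) {a : Matrix (Fin n) (Fin n) k}
    (ha : a ∈ Sp ρ) (ha0 : a ≠ 0) : ∃ b ∈ Sp ρ, ∃ w : Fin n → k, w ≠ 0 ∧
      b.mulVec (a.mulVec w) = w := by
  classical
  -- invariant subspaces not killed by `a`; take one of minimal dimension
  let P : ℕ → Prop := fun d => ∃ W : Submodule k (Fin n → k), finrank k W = d ∧
    (∀ g, ∀ w ∈ W, (ρ g : Matrix (Fin n) (Fin n) k).mulVec w ∈ W) ∧ ∃ w ∈ W, a.mulVec w ≠ 0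
  have hP : ∃ d, P d := by
    refine ⟨_, ⊤, rfl, fun _ _ _ => Submodule.mem_top, ?_⟩
    by_contra h
    push Not at h
    apply ha0
    ext i j
    have := congrFun (h (Pi.single j 1) Submodule.mem_top) i
    simpa using this
  obtain ⟨W, hWd, hW, w, hw, haw⟩ := Nat.find_spec hP
  have hmin : ∀ W' : Submodule k (Fin n → k), W' ≤ W → W' ≠ W →
      (∀ g, ∀ w ∈ W', (ρ g : Matrix (Fin n) (Fin n) k).mulVec w ∈ W') → ∀ w ∈ W', a.mulVec w = 0 := by
    intro W' h1 h2 h3 w' hw'
    by_contra h4
    have h5 : finrank k W' < finrank k W := Submodule.finrank_lt_finrank_of_lt (lt_of_le_of_ne h1 h2)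
    rw [hWd] at h5
    exact Nat.find_min hP h5 ⟨W', rfl, h3, w', hw', h4⟩
  -- the invariant subspace generated by `a w`
  let U : Submodule k (Fin n → k) := (Sp ρ).map
    ((Matrix.mulVecBilin k k).flip (a.mulVec w))
  have hU : ∀ v, v ∈ U ↔ ∃ b ∈ Sp ρ, b.mulVec (a.mulVec w) = v := by
    intro v
    simp only [U, Submodule.mem_map, LinearMap.flip_apply, Matrix.mulVecBilin_apply]
  have hUinv : ∀ g, ∀ v ∈ U, (ρ g : Matrix (Fin n) (Fin n) k).mulVec v ∈ U := by
    intro g v hv
    rw [hU] at hv ⊢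
    obtain ⟨b, hb, rfl⟩ := hv
    exact ⟨ρ g * b, sp_mul (Submodule.subset_span ⟨g, rfl⟩) hb, by rw [← Matrix.mulVec_mulVec]⟩
  have hUW : U ≤ W := by
    intro v hv
    rw [hU] at hv
    obtain ⟨b, hb, rfl⟩ := hv
    exact inv_of_inv hW hb (inv_of_inv hW ha hw)
  have haU : a.mulVec w ∈ U := (hU _).mpr ⟨1, sp_one ρ, by rw [Matrix.one_mulVec]⟩
  by_cases hUW' : U = W
  · obtain ⟨b, hb, hbw⟩ := (hU w).mp (hUW' ▸ hw)
    refine ⟨b, hb, w, ?_, hbw⟩
    rintro rfl
    exact haw (Matrix.mulVec_zero _)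
  · exfalso
    -- complement of `U` in `W`
    obtain ⟨U', hU', hc⟩ := hρ U hUinv
    let W' := U' ⊓ W
    have hW'inv : ∀ g, ∀ v ∈ W', (ρ g : Matrix (Fin n) (Fin n) k).mulVec v ∈ W' :=
      fun g v hv => ⟨hU' g v hv.1, hW g v hv.2⟩
    have hU0 : U ≠ ⊥ := by
      intro h
      rw [h] at haU
      exact haw ((Submodule.mem_bot k).mp haU)
    have hW'ne : W' ≠ W := by
      intro h
      have h1 : W ≤ U' := by rw [← h]; exact inf_le_left
      exact hU0 (le_bot_iff.mp (hc.disjoint.le_bot.trans' (le_inf le_rfl (hUW.trans h1))))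
    have k1 := hmin U hUW hUW' hUinv
    have k2 := hmin W' inf_le_right hW'ne hW'inv
    -- w = u + u'
    have h2 : w ∈ U ⊔ U' := by rw [hc.codisjoint.eq_top]; exact Submodule.mem_top
    obtain ⟨u, hu, u', hu', huw⟩ := Submodule.mem_sup.mp h2
    have hu'W : u' ∈ W' := by
      refine ⟨hu', ?_⟩
      have : u' = w - u := by rw [← huw]; simp
      rw [this]
      exact Submodule.sub_mem _ hw (hUW hu)
    apply haw
    rw [← huw, Matrix.mulVec_add, k1 u hu, k2 u' hu'W, add_zero]

/-- **Nondegeneracy of the trace form** of a semisimple representation. -/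
theorem nondeg {ρ : G →* GL (Fin n) k} (hρ : Semis ρ) (hc : ∀ m : ℕ, 0 < m → m ≤ n → (m : k) ≠ 0)
    {a : Matrix (Fin n) (Fin n) k} (ha : a ∈ Sp ρ)
    (h : ∀ g, (a * (ρ g : Matrix (Fin n) (Fin n) k)).trace = 0) : a = 0 := by
  by_contra ha0
  obtain ⟨b, hb, w, hw0, hw⟩ := exists_fix hρ ha ha0
  have h1 : ∀ c ∈ Sp ρ, (a * c).trace = 0 := by
    intro c hc'
    unfold Sp at hc'
    induction hc' using Submodule.span_induction with
    | mem x hx => obtain ⟨g, rfl⟩ := hx; exact h g
    | zero => rw [mul_zero, Matrix.trace_zero]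
    | add x y _ _ hx hy => rw [mul_add, Matrix.trace_add, hx, hy, add_zero]
    | smul c x _ hx => rw [mul_smul_comm, Matrix.trace_smul, hx, smul_zero]
  have hpow : ∀ j : ℕ, (b * a) ^ j ∈ Sp ρ := by
    intro j
    induction j with
    | zero => rw [pow_zero]; exact sp_one ρ
    | succ j ih => rw [pow_succ]; exact sp_mul ih (sp_mul hb ha)
  have h2 : ∀ j : ℕ, ((b * a) ^ (j + 1)).trace = 0 := by
    intro j
    rw [pow_succ', mul_assoc, Matrix.trace_mul_comm, mul_assoc]
    exact h1 _ (sp_mul (hpow j) hb)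
  have h3 : IsNilpotent (Matrix.toLin' (b * a)) := by
    refine isNilpotent_of_trace_pow (fun m hm hm2 => hc m hm ?_) _ fun j => ?_
    · simpa using hm2
    · rw [← Matrix.toLin'_pow, Matrix.trace_toLin'_eq]
      exact h2 j
  obtain ⟨N, hN⟩ := h3
  have h4 : ∀ j : ℕ, (Matrix.toLin' (b * a) ^ j) w = w := by
    intro j
    induction j with
    | zero => simp
    | succ j ih =>
      rw [pow_succ, Module.End.mul_apply, Matrix.toLin'_apply, ← Matrix.mulVec_mulVec, hw, ih]
  have h5 := h4 N
  rw [hN] at h5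
  exact hw0 (by simpa using h5.symm)

end

end Pool.Agent.W401.Gal
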