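import Pool.Agent.W401.Gal.Irr

/-!
# Irreducibility of representations attached to coefficients of bounded mean square
-/

set_option autoImplicit false

namespace Pool.Agent.W401.Gal

open NumberField IsDedekindDomain Polynomial Pool.Agent.W401.Cheb Filter Topology Module

theorem irreducible_of_meansq (hC : ChebK) (hF : TaskFrob) {K : Type} [Field K] [NumberField K]
    {F : Type} [Field F] [NumberField F] {n : ℕ} (hn : 0 < n)
    {S : Set (HeightOneSpectrum (𝓞 K))} (hS : S.Finite)
    (A : HeightOneSpectrum (𝓞 K) → (𝓞 F)[X]) (C : ℝ)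
    (hRS : ∀ s : F →+* ℂ, ∀ᶠ N : ℕ in atTop,
      sumsq S (fun v => s ((tc n A v : 𝓞 F) : F)) N ≤ C * Nat.primeCounting N)
    (ι : F →+* ℂ) {c : ℝ} (hc : c < 2) (hc2 : ∃ᶠ N : ℕ in atTop,
      sumsq S (fun v => ι ((tc n A v : 𝓞 F) : F)) N ≤ c * Nat.primeCounting N)
    {E : Type} [Field E] [TopologicalSpace E] [IsTopologicalRing E] [T2Space E]
    (j : E →+* ℂ) (r : 𝓞 F →+* E) (hr : ∀ a : 𝓞 F, j (r a) = ι (a : F))
    (ρ : GK K →* GL (Fin n) E) (hcont : Continuous ρ) (hsem : Semis ρ) (hatt : Attached S A r ρ)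
    (W : Submodule E (Fin n → E))
    (hW : ∀ g : GK K, ∀ w ∈ W, (ρ g : Matrix (Fin n) (Fin n) E).mulVec w ∈ W) :
    W = ⊥ ∨ W = ⊤ := by
  classical
  by_contra hcon
  push Not at hcon
  obtain ⟨h0, h1⟩ := hcon
  have hchar : CharZero E := charZero_of_injective_ringHom (f := (Nat.castRingHom ℂ)) (by
    exact Nat.cast_injective) |>.casesOn (fun _ => by
      refine ⟨fun a b hab => ?_⟩
      have := congrArg j hab
      rw [map_natCast, map_natCast] at this
      exact Nat.cast_injective this)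
  have hcc : ∀ m : ℕ, 0 < m → m ≤ n → (m : E) ≠ 0 := fun m hm _ => by exact_mod_cast hm.ne'
  have hT : Tight S (tc n A) := tight_of_meansq C hRS
  have hR := finite_of_tight hC hF hn hcc hS hcont hsem hatt hT
  have hfi : Finite (GK K ⧸ ρ.ker) := by
    have : Finite ρ.range := hR.to_subtype
    exact Finite.of_equiv _ (QuotientGroup.quotientKerEquivRange ρ).symm.toEquiv
  have hcl : IsClosed (ρ.ker : Set (GK K)) := by
    have : (ρ.ker : Set (GK K)) = ρ ⁻¹' {1} := by
      ext g; simp [MonoidHom.mem_ker]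
    rw [this]
    exact isClosed_singleton.preimage hcont
  have hfidx : ρ.ker.FiniteIndex := Subgroup.finiteIndex_of_finite_quotient
  have hop : IsOpen (ρ.ker : Set (GK K)) := Subgroup.isOpen_of_isClosed_of_finiteIndex _ hcl
  have : Fintype (GK K ⧸ ρ.ker) := Fintype.ofFinite _
  set rb : GK K ⧸ ρ.ker →* GL (Fin n) E := QuotientGroup.kerLift ρ with hrb
  have hrbv : ∀ g : GK K, rb (g : GK K ⧸ ρ.ker) = ρ g := fun g => rfl
  obtain ⟨W', hW', hcompl⟩ := hsem W hW
  have h2 := two_le_char rb (W := W) (W' := W')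
    (fun q w hw => by obtain ⟨g, rfl⟩ := QuotientGroup.mk_surjective q; exact hW g w hw)
    (fun q w hw => by obtain ⟨g, rfl⟩ := QuotientGroup.mk_surjective q; exact hW' g w hw)
    hcompl h0 h1 j
  obtain ⟨c', hcc', hc'⟩ := exists_between hc
  have hQ : (0 : ℝ) < Fintype.card (GK K ⧸ ρ.ker) := by exact_mod_cast Fintype.card_pos
  have hmean := mean_lower hC hF ρ.ker hop
    (fun q => ‖j (rb q : Matrix (Fin n) (Fin n) E).trace‖ ^ 2) (fun q => by positivity)
    (by
      intro σ τ
      rw [hrbv, hrbv, map_mul, map_mul, Units.val_mul, Units.val_mul, Matrix.trace_mul_comm,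
        ← mul_assoc, ← Units.val_mul, ← map_mul, inv_mul_cancel, map_one, Units.val_one, one_mul])
    hS (fun v => ι ((tc n A v : 𝓞 F) : F))
    (by
      intro v hv σ hσ
      have hv2 : ((Ideal.absNorm v.asIdeal : ℕ) : E) ≠ 0 := by
        rw [Nat.cast_ne_zero]
        intro h3
        rw [Ideal.absNorm_eq_zero_iff] at h3
        exact v.ne_bot h3
      rw [hrbv, trace_frob hn hatt hv hv2 hσ, hr])
    (c := c') (by
      rw [lt_div_iff₀ hQ]
      nlinarith)
  obtain ⟨N, hN1, hN2⟩ := (hc2.and_eventually hmean).exists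
  have hpi : (0 : ℝ) ≤ Nat.primeCounting N := Nat.cast_nonneg _
  nlinarith

end Pool.Agent.W401.Gal
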