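import Pool.Agent.W401.Gal.Trace

/-! Representations with finite image in characteristic zero are semisimple (Maschke). -/

set_option autoImplicit false

namespace Pool.Agent.W401.Gal

theorem semis_of_finite {E G : Type*} [Field E] [CharZero E] [Group G] {n : ℕ}
    (ρ : G →* GL (Fin n) E) (hfin : Finite (G ⧸ ρ.ker)) : Semis ρ := by
  classical
  intro W hW
  have : Fintype (G ⧸ ρ.ker) := Fintype.ofFinite _
  set rb : G ⧸ ρ.ker →* GL (Fin n) E := QuotientGroup.kerLift ρ with hrb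
  have hrbv : ∀ g : G, rb (g : G ⧸ ρ.ker) = ρ g := fun g => rfl
  let L : (G ⧸ ρ.ker) → ((Fin n → E) →ₗ[E] (Fin n → E)) := fun q => (rb q).1.mulVecLin
  have hLmul : ∀ a b, L (a * b) = L a ∘ₗ L b := by
    intro a b
    ext x
    simp [L, map_mul, Matrix.mulVec_mulVec]
  have hL1 : L 1 = LinearMap.id := by
    ext x
    simp [L]
  have hLW : ∀ q, ∀ w ∈ W, L q w ∈ W := by
    intro q w hw
    obtain ⟨g, rfl⟩ := QuotientGroup.mk_surjective q
    exact hW g w hw
  obtain ⟨W₀, hW₀⟩ := Submodule.exists_isCompl W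
  let p : (Fin n → E) →ₗ[E] (Fin n → E) := W.subtype ∘ₗ W.projectionOnto W₀ hW₀
  have hp1 : ∀ x, p x ∈ W := fun x => (W.projectionOnto W₀ hW₀ x).2
  have hp2 : ∀ w ∈ W, p w = w := by
    intro w hw
    have := Submodule.projectionOnto_apply_left hW₀ ⟨w, hw⟩
    simp only [p, LinearMap.comp_apply, this]
    rfl
  have hcard : (Fintype.card (G ⧸ ρ.ker) : E) ≠ 0 := by exact_mod_cast Fintype.card_ne_zero
  let P : (Fin n → E) →ₗ[E] (Fin n → E) :=
    (Fintype.card (G ⧸ ρ.ker) : E)⁻¹ • ∑ q, L q ∘ₗ p ∘ₗ L q⁻¹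
  have hP1 : ∀ x, P x ∈ W := by
    intro x
    simp only [P, LinearMap.smul_apply, LinearMap.sum_apply, LinearMap.comp_apply]
    exact W.smul_mem _ (W.sum_mem fun q _ => hLW q _ (hp1 _))
  have hP2 : ∀ w ∈ W, P w = w := by
    intro w hw
    simp only [P, LinearMap.smul_apply, LinearMap.sum_apply, LinearMap.comp_apply]
    have h1 : ∀ q, L q (p (L q⁻¹ w)) = w := by
      intro q
      rw [hp2 _ (hLW _ _ hw), ← LinearMap.comp_apply, ← hLmul, mul_inv_cancel, hL1]
      rfl
    rw [Finset.sum_congr rfl fun q _ => h1 q, Finset.sum_const, Finset.card_univ, ← Nat.cast_smul_eq_nsmul E,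
      smul_smul, inv_mul_cancel₀ hcard, one_smul]
  have hP3 : ∀ q, P ∘ₗ L q = L q ∘ₗ P := by
    intro q
    ext1 i
    ext1
    simp only [P, LinearMap.smul_apply, LinearMap.sum_apply, LinearMap.comp_apply, map_smul, map_sum]
    congr 1
    rw [← Equiv.sum_comp (Equiv.mulLeft q)]
    refine Finset.sum_congr rfl fun r _ => ?_
    have h1 : L (q * r)⁻¹ ∘ₗ L q = L r⁻¹ := by
      rw [← hLmul]
      congr 1
      group
    have h2 : ∀ x, L (q * r)⁻¹ (L q x) = L r⁻¹ x := fun x => by rw [← LinearMap.comp_apply, h1]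
    simp only [Equiv.coe_mulLeft]
    rw [h2, hLmul]
    rfl
  refine ⟨LinearMap.ker P, ?_, ?_⟩
  · intro g w hw
    rw [LinearMap.mem_ker] at hw ⊢
    have h1 : (ρ g : Matrix (Fin n) (Fin n) E).mulVec w = L (g : G ⧸ ρ.ker) w := rfl
    rw [h1, ← LinearMap.comp_apply, hP3, LinearMap.comp_apply, hw, map_zero]
  · constructor
    · rw [Submodule.disjoint_def]
      intro x hx hx2
      rw [LinearMap.mem_ker, hP2 x hx] at hx2
      exact hx2
    · rw [codisjoint_iff, eq_top_iff]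
      intro x _
      rw [Submodule.mem_sup]
      refine ⟨P x, hP1 x, x - P x, ?_, by abel⟩
      rw [LinearMap.mem_ker, map_sub, hP2 _ (hP1 x), sub_self]

end Pool.Agent.W401.Gal
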