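import Pool.Agent.W401.Gal.DS
import Pool.Agent.W401.Gal.Avg

/-!
# Galois representations with coefficients of bounded mean square
-/

set_option autoImplicit false

namespace Pool.Agent.W401.Gal

open NumberField IsDedekindDomain Polynomial Pool.Agent.W401.Cheb Filter Topology

section
variable {K : Type} [Field K] [NumberField K]

lemma dens_or (P Q : HeightOneSpectrum (𝓞 K) → Prop) (N : ℕ) :
    dens (fun v => P v ∨ Q v) N ≤ dens P N + dens Q N := by
  rw [dens_eq, dens_eq, dens_eq, ← add_div]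
  refine div_le_div_of_nonneg_right ?_ (Nat.cast_nonneg _)
  have h1 : {v : HeightOneSpectrum (𝓞 K) | Ideal.absNorm v.asIdeal ≤ N ∧ (P v ∨ Q v)} ⊆
      {v : HeightOneSpectrum (𝓞 K) | Ideal.absNorm v.asIdeal ≤ N ∧ P v} ∪
      {v : HeightOneSpectrum (𝓞 K) | Ideal.absNorm v.asIdeal ≤ N ∧ Q v} := by
    rintro v ⟨h1, h2 | h2⟩
    · exact Or.inl ⟨h1, h2⟩
    · exact Or.inr ⟨h1, h2⟩
  have h2 := (Set.ncard_le_ncard h1 ((finite_P P N).union (finite_P Q N))).trans
    (Set.ncard_union_le _ _)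
  exact_mod_cast h2

/-- the prime ideal theorem, in the present normalisation -/
lemma dens_all (hC : ChebK) : Tendsto (dens fun v : HeightOneSpectrum (𝓞 K) =>
    ∃ σ ∈ (Set.univ : Set (GK K)), IsFrob v σ) atTop (𝓝 1) := by
  have h := hC K ⊤ isOpen_univ Set.univ (fun _ _ _ => trivial) (fun _ _ _ _ => trivial)
  have h1 : (((QuotientGroup.mk : GK K → GK K ⧸ (⊤ : Subgroup (GK K))) '' Set.univ).ncard : ℝ) /
      (Nat.card (GK K ⧸ (⊤ : Subgroup (GK K))) : ℝ) = 1 := by
    rw [Set.image_univ, QuotientGroup.mk_surjective.range_eq, Set.ncard_univ]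
    have h2 : (Nat.card (GK K ⧸ (⊤ : Subgroup (GK K))) : ℝ) ≠ 0 := by
      have : Finite (GK K ⧸ (⊤ : Subgroup (GK K))) := inferInstance
      exact_mod_cast Nat.card_pos.ne'
    exact div_self h2
  rw [h1] at h
  exact h

/-- a representation attached to tight coefficients has finite image -/
theorem finite_of_tight (hC : ChebK) (hF : TaskFrob) {k : Type} [Field k] [TopologicalSpace k]
    [IsTopologicalRing k] [T2Space k] {R : Type} [CommRing R] {n : ℕ} (hn : 0 < n)
    (hc : ∀ m : ℕ, 0 < m → m ≤ n → (m : k) ≠ 0)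
    {S : Set (HeightOneSpectrum (𝓞 K))} (hS : S.Finite) {A : HeightOneSpectrum (𝓞 K) → R[X]}
    {r : R →+* k} {ρ : GK K →* GL (Fin n) k} (hcont : Continuous ρ) (hρ : Semis ρ)
    (h : Attached S A r ρ) (hT : Tight S (tc n A)) : (Set.range ρ).Finite := by
  have hn2 : (0 : ℝ) < (n : ℝ) ^ 2 := by positivity
  obtain ⟨Y, hY, hYd⟩ := hT (1 / (4 * (n : ℝ) ^ 2)) (by positivity)
  refine finite_of_frob_traces hC hF hn hc ρ hcont hρ (hY.image r)
    (δ := 1 - 1 / (2 * (n : ℝ) ^ 2)) ?_ ?_
  · have : 1 / (2 * (n : ℝ) ^ 2) < 1 / (n : ℝ) ^ 2 := by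
      apply one_div_lt_one_div_of_lt hn2
      linarith
    linarith
  · set P1 : HeightOneSpectrum (𝓞 K) → Prop := fun v =>
      ∀ σ : GK K, IsFrob v σ → (ρ σ : Matrix (Fin n) (Fin n) k).trace ∈ r '' Y with hP1
    set P2 : HeightOneSpectrum (𝓞 K) → Prop := fun v => v ∉ S ∧ tc n A v ∉ Y with hP2
    set T : Set (HeightOneSpectrum (𝓞 K)) :=
      S ∪ {v | ((Ideal.absNorm v.asIdeal : ℕ) : k) = 0} with hTd
    have hTf : T.Finite := hS.union finite_char
    have hle : ∀ N, dens (fun v : HeightOneSpectrum (𝓞 K) =>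
        ∃ σ ∈ (Set.univ : Set (GK K)), IsFrob v σ) N ≤
        dens P1 N + dens P2 N + (T.ncard : ℝ) / (Nat.primeCounting N : ℝ) := by
      intro N
      refine (dens_le (Q := fun v => P1 v ∨ P2 v) hTf ?_ N).trans ?_
      · intro v _
        by_cases hvT : v ∈ T
        · exact Or.inr hvT
        · left
          simp only [hTd, Set.mem_union, Set.mem_ofPred_eq, not_or] at hvT
          by_cases hv : tc n A v ∈ Y
          · left
            intro σ hσ
            rw [trace_frob hn h hvT.1 hvT.2 hσ]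
            exact ⟨_, hv, rfl⟩
          · exact Or.inr ⟨hvT.1, hv⟩
      · have := dens_or P1 P2 N
        linarith
    have h1 : ∀ᶠ N in atTop, 1 - 1 / (8 * (n : ℝ) ^ 2) < dens (fun v : HeightOneSpectrum (𝓞 K) =>
        ∃ σ ∈ (Set.univ : Set (GK K)), IsFrob v σ) N := by
      refine (dens_all hC).eventually (lt_mem_nhds ?_)
      have : (0 : ℝ) < 1 / (8 * (n : ℝ) ^ 2) := by positivity
      linarith
    have h2 : ∀ᶠ N : ℕ in atTop, (T.ncard : ℝ) / (Nat.primeCounting N : ℝ) < 1 / (8 * (n : ℝ) ^ 2) :=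
      (tendsto_const_div (T.ncard : ℝ)).eventually (gt_mem_nhds (by positivity))
    refine Filter.Eventually.frequently ?_
    filter_upwards [h1, h2, hYd] with N h3 h4 h5
    have h6 := hle N
    have e1 : 1 / (4 * (n : ℝ) ^ 2) = 2 * (1 / (8 * (n : ℝ) ^ 2)) := by field_simp; norm_num
    have e2 : 1 / (2 * (n : ℝ) ^ 2) = 4 * (1 / (8 * (n : ℝ) ^ 2)) := by field_simp; norm_num
    rw [e2]
    rw [e1] at h5
    linarith

/-- **Main theorem.** -/
theorem main (hC : ChebK) (hF : TaskFrob) (hP : TaskProd) (F : Type) [Field F] [NumberField F]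
    {n : ℕ} (hn : 0 < n) {S : Set (HeightOneSpectrum (𝓞 K))} (hS : S.Finite)
    (A : HeightOneSpectrum (𝓞 K) → (𝓞 F)[X]) (C : ℝ)
    (hRS : ∀ s : F →+* ℂ, ∀ᶠ N : ℕ in atTop,
      sumsq S (fun v => s ((tc n A v : 𝓞 F) : F)) N ≤ C * Nat.primeCounting N)
    (Λ : Type) [Infinite Λ] (k : Λ → Type) [∀ l, Field (k l)] [∀ l, TopologicalSpace (k l)]
    [∀ l, IsTopologicalRing (k l)] [∀ l, T2Space (k l)] (r : ∀ l, 𝓞 F →+* k l)
    (hr : ∀ a : 𝓞 F, a ≠ 0 → {l : Λ | r l a = 0}.Finite)
    (ρ : ∀ l, GK K →* GL (Fin n) (k l)) (hcont : ∀ l, Continuous (ρ l))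
    (hsem : ∀ l, Semis (ρ l)) (hatt : ∀ l, Attached S A (r l) (ρ l)) (ι : F →+* ℂ)
    (E : Type) [Field E] (j : ℂ →+* E) :
    ∃ ρ' : GK K →* GL (Fin n) E, IsOpen (ρ'.ker : Set (GK K)) ∧ Finite (GK K ⧸ ρ'.ker) ∧
      Semis ρ' ∧ Attached S A (j.comp (ι.comp (algebraMap (𝓞 F) F))) ρ' := by
  classical
  have hT : Tight S (tc n A) := tight_of_meansq C hRS
  -- good indices
  set Λ₁ : Set Λ := {l | ((n.factorial : ℕ) : k l) ≠ 0} with hΛ₁
  have hΛ₁c : (Λ₁ᶜ).Finite := by
    refine (hr (n.factorial : 𝓞 F) (by exact_mod_cast n.factorial_ne_zero)).subset fun l hl => ?_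
    have hl' : ((n.factorial : ℕ) : k l) = 0 := by
      by_contra h
      exact hl h
    simp only [Set.mem_ofPred_eq, map_natCast]
    exact hl'
  have hinf : Infinite Λ₁ := by
    have : (Λ₁).Infinite := by
      have := hΛ₁c.infinite_compl
      rwa [compl_compl] at this
    exact this.to_subtype
  have hopen : ∀ l : Λ₁, IsOpen ((ρ l).ker : Set (GK K)) := by
    intro l
    have hc : ∀ m : ℕ, 0 < m → m ≤ n → (m : k l) ≠ 0 := by
      intro m hm hmn h0
      apply l.2
      obtain ⟨c, hc⟩ := Nat.dvd_factorial hm hmn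
      rw [hc, Nat.cast_mul, h0, zero_mul]
    have hR := finite_of_tight hC hF hn hc hS (hcont l) (hsem l) (hatt l) hT
    have hfi : Finite (GK K ⧸ (ρ l).ker) := by
      have : Finite (ρ l).range := hR.to_subtype
      exact Finite.of_equiv _ (QuotientGroup.quotientKerEquivRange (ρ l)).symm.toEquiv
    have hcl : IsClosed ((ρ l).ker : Set (GK K)) := by
      have : ((ρ l).ker : Set (GK K)) = (ρ l) ⁻¹' {1} := by
        ext g; simp [MonoidHom.mem_ker]
      rw [this]
      exact isClosed_singleton.preimage (hcont l)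
    have hfidx : (ρ l).ker.FiniteIndex := Subgroup.finiteIndex_of_finite_quotient
    exact Subgroup.isOpen_of_isClosed_of_finiteIndex _ hcl
  obtain ⟨ρ', h1, h2⟩ := deligne_serre hC hF hP F hn hS A hT Λ₁ (fun l => k l) (fun l => r l)
    (fun a ha => by
      have := hr a ha
      exact this.preimage (f := fun l : Λ₁ => (l : Λ)) Subtype.val_injective.injOn)
    (fun l => ρ l) hopen (fun l => hsem l) (fun l => hatt l) ι
  have hinj : Function.Injective (Matrix.GeneralLinearGroup.map (n := Fin n) j) := by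
    intro a b hab
    have h3 : (a : Matrix (Fin n) (Fin n) ℂ).map j = (b : Matrix (Fin n) (Fin n) ℂ).map j :=
      congrArg Units.val hab
    apply Units.ext
    exact Matrix.map_injective j.injective h3
  have hker : ((Matrix.GeneralLinearGroup.map j).comp ρ').ker = ρ'.ker := by
    ext g
    rw [MonoidHom.mem_ker, MonoidHom.mem_ker, MonoidHom.comp_apply]
    constructor
    · intro h
      apply hinj
      rw [h, map_one]
    · intro h
      rw [h, map_one]
  have hop : IsOpen (((Matrix.GeneralLinearGroup.map j).comp ρ').ker : Set (GK K)) := by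
    rw [hker]; exact h1
  have hfi : Finite (GK K ⧸ ((Matrix.GeneralLinearGroup.map j).comp ρ').ker) :=
    Subgroup.quotient_finite_of_isOpen _ hop
  have hchar : CharZero E := charZero_of_injective_ringHom j.injective
  exact ⟨(Matrix.GeneralLinearGroup.map j).comp ρ', hop, hfi, semis_of_finite _ hfi, h2.transport j⟩

end

end Pool.Agent.W401.Gal
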