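import Pool.Agent.W401.Gal.FT
import Pool.Agent.W401.Gal.Prod

/-!
# The Deligne-Serre theorem for `GL_n` with a Rankin-Selberg bound
-/

set_option autoImplicit false

namespace Pool.Agent.W401.Gal

open NumberField IsDedekindDomain Polynomial Pool.Agent.W401.Cheb Filter Topology

section
variable {K : Type} [Field K] [NumberField K]

/-- sum of `‖f v‖²` over the primes `v ∉ S` of norm at most `N` -/
noncomputable def sumsq (S : Set (HeightOneSpectrum (𝓞 K))) (f : HeightOneSpectrum (𝓞 K) → ℂ)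
    (N : ℕ) : ℝ :=
  ∑ᶠ v ∈ {v : HeightOneSpectrum (𝓞 K) | Ideal.absNorm v.asIdeal ≤ N ∧ v ∉ S}, ‖f v‖ ^ 2

/-- Chebyshev-Markov: a bound for the mean square gives a density bound -/
lemma dens_markov {S : Set (HeightOneSpectrum (𝓞 K))} {f : HeightOneSpectrum (𝓞 K) → ℂ} {c T : ℝ}
    (hT : 0 < T) {N : ℕ} (hN : 0 < Nat.primeCounting N)
    (h : sumsq S f N ≤ c * Nat.primeCounting N) :
    dens (fun v => v ∉ S ∧ T < ‖f v‖) N ≤ c / T ^ 2 := by
  classical
  have hfin := finite_P (fun v : HeightOneSpectrum (𝓞 K) => v ∉ S) N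
  have hfin2 := finite_P (fun v : HeightOneSpectrum (𝓞 K) => v ∉ S ∧ T < ‖f v‖) N
  have hpi : (0 : ℝ) < Nat.primeCounting N := by exact_mod_cast hN
  rw [dens_eq, div_le_div_iff₀ hpi (by positivity)]
  refine le_trans ?_ h
  unfold sumsq
  rw [finsum_mem_eq_finite_toFinset_sum _ hfin, Set.ncard_eq_toFinset_card _ hfin2, mul_comm,
    ← nsmul_eq_mul']
  refine le_trans (Finset.card_nsmul_le_sum _ (fun v => ‖f v‖ ^ 2) (T ^ 2) ?_) ?_
  · intro v hv
    simp only [Set.Finite.mem_toFinset, Set.mem_ofPred_eq] at hv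
    have := hv.2.2
    gcongr
  · refine Finset.sum_le_sum_of_subset_of_nonneg ?_ fun _ _ _ => by positivity
    intro v hv
    simp only [Set.Finite.mem_toFinset, Set.mem_ofPred_eq] at hv ⊢
    exact ⟨hv.1, hv.2.1⟩

/-- mean square bounds for all conjugates imply tightness -/
theorem tight_of_meansq {F : Type} [Field F] [NumberField F] {S : Set (HeightOneSpectrum (𝓞 K))}
    {a : HeightOneSpectrum (𝓞 K) → 𝓞 F} (C : ℝ)
    (h : ∀ s : F →+* ℂ, ∀ᶠ N : ℕ in atTop, sumsq S (fun v => s (a v)) N ≤ C * Nat.primeCounting N) :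
    Tight S a := by
  classical
  intro ε hε
  set d : ℕ := Fintype.card (F →+* ℂ) with hd
  -- choose the threshold
  obtain ⟨T, hT0, hT⟩ : ∃ T : ℝ, 0 < T ∧ d * ((|C| + 1) / T ^ 2) ≤ ε := by
    refine ⟨Real.sqrt ((d + 1) * (|C| + 1) / ε), Real.sqrt_pos.mpr (by positivity), ?_⟩
    rw [Real.sq_sqrt (by positivity), div_div_eq_mul_div, ← mul_div_assoc, div_le_iff₀ (by positivity)]
    nlinarith [mul_nonneg hε.le (add_nonneg (abs_nonneg C) zero_le_one)]
  refine ⟨{x : 𝓞 F | ∀ s : F →+* ℂ, ‖s x‖ ≤ T}, ?_, ?_⟩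
  · have h1 := Embeddings.finite_of_norm_le F ℂ T
    refine Set.Finite.of_finite_image (f := fun x : 𝓞 F => (x : F)) (h1.subset ?_)
      RingOfIntegers.coe_injective.injOn
    rintro _ ⟨x, hx, rfl⟩
    exact ⟨x.isIntegral_coe, hx⟩
  · have h1 : ∀ᶠ N : ℕ in atTop, ∀ s : F →+* ℂ,
        sumsq S (fun v => s (a v)) N ≤ C * Nat.primeCounting N := by
      rw [eventually_all]
      exact h
    filter_upwards [h1, eventually_ge_atTop 2] with N hN hN2
    have hpc : 0 < Nat.primeCounting N := by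
      have : Nat.primeCounting 2 ≤ Nat.primeCounting N := Nat.monotone_primeCounting hN2
      have h2 : Nat.primeCounting 2 = 1 := by decide
      omega
    have h2 : dens (fun v => v ∉ S ∧ a v ∉ {x : 𝓞 F | ∀ s : F →+* ℂ, ‖s x‖ ≤ T}) N ≤
        ∑ s : F →+* ℂ, dens (fun v => v ∉ S ∧ T < ‖s (a v)‖) N := by
      have hpi : (0 : ℝ) < Nat.primeCounting N := by exact_mod_cast hpc
      simp only [dens_eq]
      rw [← Finset.sum_div]
      refine div_le_div_of_nonneg_right ?_ hpi.le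
      have h3 : {v : HeightOneSpectrum (𝓞 K) | Ideal.absNorm v.asIdeal ≤ N ∧ v ∉ S ∧
          a v ∉ {x : 𝓞 F | ∀ s : F →+* ℂ, ‖s x‖ ≤ T}} ⊆
          ⋃ s ∈ (Finset.univ : Finset (F →+* ℂ)),
            {v : HeightOneSpectrum (𝓞 K) | Ideal.absNorm v.asIdeal ≤ N ∧ v ∉ S ∧ T < ‖s (a v)‖} := by
        rintro v ⟨h4, h5, h6⟩
        simp only [Set.mem_ofPred_eq, not_forall, not_le] at h6
        obtain ⟨s, hs⟩ := h6
        simp only [Finset.mem_univ, Set.iUnion_true, Set.mem_iUnion]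
        exact ⟨s, h4, h5, hs⟩
      have h4 : (⋃ s ∈ (Finset.univ : Finset (F →+* ℂ)),
            {v : HeightOneSpectrum (𝓞 K) | Ideal.absNorm v.asIdeal ≤ N ∧ v ∉ S ∧ T < ‖s (a v)‖}).Finite := by
        refine Set.Finite.biUnion (Finset.finite_toSet _) fun s _ => finite_P _ N
      have h5 := Set.ncard_le_ncard h3 h4
      have h6 := h5.trans (Finset.set_ncard_biUnion_le _ _)
      exact_mod_cast h6
    refine h2.trans (le_trans (Finset.sum_le_sum fun s _ => ?_) (b := ∑ s : F →+* ℂ, (|C| + 1) / T ^ 2) ?_)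
    · have h3 := dens_markov hT0 hpc (hN s)
      refine h3.trans (div_le_div_of_nonneg_right ?_ (by positivity))
      linarith [le_abs_self C]
    · rw [Finset.sum_const, nsmul_eq_mul]
      exact hT

/-- transport of a complex representation to another field -/
theorem Attached.transport {R : Type} [CommRing R] {n : ℕ} {S : Set (HeightOneSpectrum (𝓞 K))}
    {A : HeightOneSpectrum (𝓞 K) → R[X]} {r : R →+* ℂ} {ρ : GK K →* GL (Fin n) ℂ}
    (h : Attached S A r ρ) {E : Type} [Field E] (j : ℂ →+* E) :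
    Attached S A (j.comp r) ((Matrix.GeneralLinearGroup.map j).comp ρ) where
  unram v hv _ σ hσ := by
    have h0 : ((Ideal.absNorm v.asIdeal : ℕ) : ℂ) ≠ 0 := by
      rw [Nat.cast_ne_zero]
      intro h1
      rw [Ideal.absNorm_eq_zero_iff] at h1
      exact v.ne_bot h1
    rw [MonoidHom.comp_apply, h.unram v hv h0 σ hσ, map_one]
  frob v hv _ σ hσ := by
    have h0 : ((Ideal.absNorm v.asIdeal : ℕ) : ℂ) ≠ 0 := by
      rw [Nat.cast_ne_zero]
      intro h1
      rw [Ideal.absNorm_eq_zero_iff] at h1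
      exact v.ne_bot h1
    have h1 := h.frob v hv h0 σ hσ
    have h2 : (((Matrix.GeneralLinearGroup.map j).comp ρ) σ : Matrix (Fin n) (Fin n) E) =
        (ρ σ : Matrix (Fin n) (Fin n) ℂ).map j := rfl
    rw [h2, Matrix.charpoly_map, h1, Polynomial.map_map]

end

end Pool.Agent.W401.Gal
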