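import Mathlib

/-! Statement: representations over the residue fields at infinitely many primes glue to a complex
representation. -/

set_option autoImplicit false

namespace Pool.Agent.W401.Gal

open NumberField IsDedekindDomain Polynomial

/-- **CH-PROD.** Let `Q` be a finite group, `F` a number field, `Λ` an infinite index set, and for
`l ∈ Λ` let `k l` be a field, `r l : 𝓞 F → k l` a ring homomorphism and `ρ l` an `n`-dimensional
representation of `Q` over `k l`; suppose that every nonzero `a ∈ 𝓞 F` is in the kernel of only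
finitely many of the `r l`.  Let `ι : F → ℂ` be an embedding.  Then there is a complex representation
`ρ'` of `Q` such that for every `q` and every polynomial `A` over `𝓞 F`: if the characteristic
polynomial of `ρ l q` is `r l A` for all but finitely many `l ∈ Λ`, then the characteristic polynomial
of `ρ' q` is `ι A`. -/
def TaskProd : Prop := ∀ (F : Type) [Field F] [NumberField F] (Λ : Type) [Infinite Λ]
  (k : Λ → Type) [∀ l, Field (k l)] (r : ∀ l, 𝓞 F →+* k l),
  (∀ a : 𝓞 F, a ≠ 0 → {l : Λ | r l a = 0}.Finite) →
  ∀ (Q : Type) [Group Q] [Finite Q] (n : ℕ) (ρ : ∀ l : Λ, Q →* GL (Fin n) (k l)) (ι : F →+* ℂ),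
  ∃ ρ' : Q →* GL (Fin n) ℂ, ∀ (q : Q) (A : (𝓞 F)[X]),
    {l : Λ | (ρ l q : Matrix (Fin n) (Fin n) (k l)).charpoly ≠ A.map (r l)}.Finite →
    (ρ' q : Matrix (Fin n) (Fin n) ℂ).charpoly = A.map (ι.comp (algebraMap (𝓞 F) F))

end Pool.Agent.W401.Gal
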