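import Pool.Agent.W401.Gal.Vert
import Pool.Agent.W401.Gal.ProdDefs
import Pool.Agent.W401.Cheb.AbsDefs
import Pool.Agent.W401.Cheb.Mean0

/-! Densities of sets of primes of a number field; the size of a finite linear group. -/

set_option autoImplicit false

namespace Pool.Agent.W401.Gal

open NumberField IsDedekindDomain Polynomial Pool.Agent.W401.Cheb Filter Topology

section
variable {K : Type} [Field K] [NumberField K]

lemma finite_norm_le (N : ℕ) : {v : HeightOneSpectrum (𝓞 K) | Ideal.absNorm v.asIdeal ≤ N}.Finite := by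
  have h := Ideal.finite_setOfPred_absNorm_le (S := 𝓞 K) N
  refine Set.Finite.of_finite_image (f := fun v : HeightOneSpectrum (𝓞 K) => v.asIdeal)
    (h.subset ?_) ?_
  · rintro _ ⟨v, hv, rfl⟩
    exact hv
  · intro v _ u _ h
    exact HeightOneSpectrum.ext h

lemma dens_eq (P : HeightOneSpectrum (𝓞 K) → Prop) (N : ℕ) : dens P N =
    (({v : HeightOneSpectrum (𝓞 K) | Ideal.absNorm v.asIdeal ≤ N ∧ P v}).ncard : ℝ) /
      (Nat.primeCounting N : ℝ) := by
  unfold dens
  rw [← Nat.card_coe_set_eq]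
  rfl

lemma finite_P (P : HeightOneSpectrum (𝓞 K) → Prop) (N : ℕ) :
    {v : HeightOneSpectrum (𝓞 K) | Ideal.absNorm v.asIdeal ≤ N ∧ P v}.Finite :=
  (finite_norm_le N).subset fun _ h => h.1

lemma dens_nonneg (P : HeightOneSpectrum (𝓞 K) → Prop) (N : ℕ) : 0 ≤ dens P N := by
  unfold dens; positivity

/-- comparison of densities up to a finite set -/
lemma dens_le {P Q : HeightOneSpectrum (𝓞 K) → Prop} {T : Set (HeightOneSpectrum (𝓞 K))}
    (hT : T.Finite) (h : ∀ v, P v → Q v ∨ v ∈ T) (N : ℕ) :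
    dens P N ≤ dens Q N + (T.ncard : ℝ) / (Nat.primeCounting N : ℝ) := by
  rw [dens_eq, dens_eq, ← add_div]
  refine div_le_div_of_nonneg_right ?_ (Nat.cast_nonneg _)
  have h1 : {v : HeightOneSpectrum (𝓞 K) | Ideal.absNorm v.asIdeal ≤ N ∧ P v} ⊆
      {v : HeightOneSpectrum (𝓞 K) | Ideal.absNorm v.asIdeal ≤ N ∧ Q v} ∪ T := by
    rintro v ⟨h1, h2⟩
    rcases h v h2 with h3 | h3
    · exact Or.inl ⟨h1, h3⟩
    · exact Or.inr h3
  have h2 := (Set.ncard_le_ncard h1 ((finite_P Q N).union hT)).trans (Set.ncard_union_le _ _)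
  exact_mod_cast h2

lemma tendsto_const_div (c : ℝ) : Tendsto (fun N : ℕ => c / (Nat.primeCounting N : ℝ)) atTop (𝓝 0) :=
  tendsto_const_nhds.div_atTop tendsto_pc

/-- a set of density greater than `ε` meets the complement of a set of upper density at most `ε` -/
lemma exists_prime {P P' : HeightOneSpectrum (𝓞 K) → Prop} {c ε : ℝ}
    (hP : Tendsto (dens P) atTop (𝓝 c)) (hc : ε < c) (hP' : ∃ᶠ N in atTop, dens P' N ≤ ε)
    {T : Set (HeightOneSpectrum (𝓞 K))} (hT : T.Finite) : ∃ v, P v ∧ ¬ P' v ∧ v ∉ T := by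
  by_contra hcon
  push Not at hcon
  have h1 : ∀ v, P v → P' v ∨ v ∈ T := by
    intro v hv
    by_cases h : P' v
    · exact Or.inl h
    · exact Or.inr (hcon v hv h)
  have h2 := hP.sub (tendsto_const_div (T.ncard : ℝ))
  rw [sub_zero] at h2
  have h3 := h2.eventually (lt_mem_nhds hc)
  obtain ⟨N, hN, hN'⟩ := (hP'.and_eventually h3).exists
  have h4 := dens_le hT h1 N
  linarith

lemma exists_prime' {P : HeightOneSpectrum (𝓞 K) → Prop} {c : ℝ}
    (hP : Tendsto (dens P) atTop (𝓝 c)) (hc : 0 < c)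
    {T : Set (HeightOneSpectrum (𝓞 K))} (hT : T.Finite) : ∃ v, P v ∧ v ∉ T := by
  have h0 : ∃ᶠ N in atTop, dens (fun _ : HeightOneSpectrum (𝓞 K) => False) N ≤ 0 := by
    refine Filter.Frequently.of_forall fun N => ?_
    rw [dens_eq]
    simp
  obtain ⟨v, h1, _, h3⟩ := exists_prime hP hc h0 hT
  exact ⟨v, h1, h3⟩

/-- only finitely many primes have norm zero in a field -/
lemma finite_char {k : Type*} [Field k] :
    {v : HeightOneSpectrum (𝓞 K) | ((Ideal.absNorm v.asIdeal : ℕ) : k) = 0}.Finite := by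
  classical
  set p := ringChar k with hp
  by_cases hp0 : p = 0
  · have : {v : HeightOneSpectrum (𝓞 K) | ((Ideal.absNorm v.asIdeal : ℕ) : k) = 0} = ∅ := by
      ext v
      simp only [Set.mem_ofPred_eq, Set.mem_empty_iff_false, iff_false]
      intro h
      rw [ringChar.spec, ← hp, hp0, Nat.zero_dvd, Ideal.absNorm_eq_zero_iff] at h
      exact v.ne_bot h
    rw [this]
    exact Set.finite_empty
  · have hpr : p.Prime := (CharP.char_is_prime_or_zero k p).resolve_right hp0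
    have hI : (Ideal.span {(p : 𝓞 K)}) ≠ 0 := by
      rw [Ne, Ideal.zero_eq_bot, Ideal.span_singleton_eq_bot]
      exact_mod_cast hp0
    refine (Ideal.finite_factors hI).subset fun v hv => ?_
    simp only [Set.mem_ofPred_eq] at hv ⊢
    rw [ringChar.spec, ← hp] at hv
    rw [Ideal.dvd_span_singleton]
    have hmax : v.asIdeal.IsMaximal := v.isPrime.isMaximal v.ne_bot
    obtain ⟨q, m, hm, hqv, hq, h⟩ := Ideal.exists_prime_and_absNorm_eq_pow v.asIdeal
    rw [h] at hv
    have h4 : p = q := (Nat.prime_dvd_prime_iff_eq hpr hq).mp (hpr.dvd_of_dvd_pow hv)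
    rw [h4]
    exact hqv

end

/-- **Size of a finite linear group** with few traces -/
theorem card_bound {k : Type*} [Field k] {n : ℕ} (hn : 0 < n) {Q : Type*} [Group Q] [Finite Q]
    (ρ : Q →* GL (Fin n) k) (hinj : Function.Injective ρ) (hρ : Semis ρ)
    (hc : ∀ m : ℕ, 0 < m → m ≤ n → (m : k) ≠ 0) {Y : Set k} (hY : Y.Finite)
    (h : ({q | (ρ q : Matrix (Fin n) (Fin n) k).trace ∉ Y}.ncard : ℝ) ≤
      (1 / (2 * (n : ℝ) ^ 2)) * Nat.card Q) :
    (Nat.card Q : ℝ) ≤ 2 * (Y.ncard + 1 : ℝ) ^ (n ^ 2) := by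
  classical
  obtain ⟨d, s, hd, hs⟩ := exists_sep hρ hc
  have : Fintype Q := Fintype.ofFinite Q
  set X : Set Q := {q | ∀ i, (ρ (s i * q) : Matrix (Fin n) (Fin n) k).trace ∈ Y} with hX
  have hXY : (X.ncard : ℝ) ≤ (Y.ncard + 1 : ℝ) ^ (n ^ 2) := by
    have h1 : X.ncard ≤ Y.ncard ^ d := by
      have hpi : (Set.pi Set.univ fun _ : Fin d => Y).ncard = Y.ncard ^ d := by
        have := hY.to_subtype
        rw [← Nat.card_coe_set_eq, ← Nat.card_coe_set_eq]
        rw [Nat.card_congr (Equiv.Set.univPi fun _ : Fin d => Y), Nat.card_fun, Nat.card_fin]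
      rw [← hpi]
      refine Set.ncard_le_ncard_of_injOn
        (fun q i => (ρ (s i * q) : Matrix (Fin n) (Fin n) k).trace) ?_ ?_
        (Set.Finite.pi fun _ => hY)
      · intro q hq i _
        exact hq i
      · intro q _ q' _ hqq
        exact hinj (hs q q' fun i => congrFun hqq i)
    calc (X.ncard : ℝ) ≤ (Y.ncard : ℝ) ^ d := by exact_mod_cast h1
      _ ≤ (Y.ncard + 1 : ℝ) ^ d := by gcongr; linarith
      _ ≤ _ := pow_le_pow_right₀ (by linarith [Nat.cast_nonneg (α := ℝ) Y.ncard]) hd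
  have hXc : (Xᶜ.ncard : ℝ) ≤ (1 / 2) * Nat.card Q := by
    have h1 : Xᶜ ⊆ ⋃ i : Fin d, (fun q => s i * q) ⁻¹'
        {q | (ρ q : Matrix (Fin n) (Fin n) k).trace ∉ Y} := by
      intro q hq
      simp only [hX, Set.mem_compl_iff, Set.mem_ofPred_eq, not_forall] at hq
      obtain ⟨i, hi⟩ := hq
      exact Set.mem_iUnion.mpr ⟨i, hi⟩
    have h2 : Xᶜ.ncard ≤ ∑ _i : Fin d, {q | (ρ q : Matrix (Fin n) (Fin n) k).trace ∉ Y}.ncard := by
      refine (Set.ncard_le_ncard h1 (Set.toFinite _)).trans ?_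
      have h3 : (⋃ i : Fin d, (fun q => s i * q) ⁻¹'
          {q | (ρ q : Matrix (Fin n) (Fin n) k).trace ∉ Y}).ncard ≤
          ∑ i : Fin d, ((fun q => s i * q) ⁻¹'
          {q | (ρ q : Matrix (Fin n) (Fin n) k).trace ∉ Y}).ncard := by
        have := Set.ncard_iUnion_le_of_fintype (fun i : Fin d => (fun q => s i * q) ⁻¹'
          {q | (ρ q : Matrix (Fin n) (Fin n) k).trace ∉ Y})
        exact this
      refine h3.trans (Finset.sum_le_sum fun i _ => ?_)
      rw [Set.ncard_preimage_of_injective_subset_range (mul_right_injective (s i))]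
      intro q _
      exact ⟨(s i)⁻¹ * q, by simp⟩
    rw [Finset.sum_const, Finset.card_univ, Fintype.card_fin, smul_eq_mul] at h2
    have h4 : (Xᶜ.ncard : ℝ) ≤ d * {q | (ρ q : Matrix (Fin n) (Fin n) k).trace ∉ Y}.ncard := by
      exact_mod_cast h2
    have hd' : (d : ℝ) ≤ (n : ℝ) ^ 2 := by exact_mod_cast hd
    have hn0 : (0 : ℝ) < (n : ℝ) ^ 2 := by positivity
    calc (Xᶜ.ncard : ℝ) ≤ (n : ℝ) ^ 2 * ((1 / (2 * (n : ℝ) ^ 2)) * Nat.card Q) := by
          refine h4.trans ?_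
          gcongr
      _ = (1 / 2) * Nat.card Q := by field_simp
  have htot : (X.ncard : ℝ) + (Xᶜ.ncard : ℝ) = Nat.card Q := by
    have := Set.ncard_add_ncard_compl X
    exact_mod_cast this
  linarith

end Pool.Agent.W401.Gal
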