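import Pool.Agent.W401.Gal.Hor
import Pool.Agent.W401.Cheb.Full
import Pool.Agent.W401.Cheb.Frob

/-!
# Representations of the absolute Galois group with few Frobenius traces

Let `K` be a number field.  A continuous semisimple `n`-dimensional representation of its absolute
Galois group over a Hausdorff topological field of characteristic zero, for which the Frobenius
elements at a set of primes of upper density greater than `1 - 1/n²` have traces in a finite set, has
finite image.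
-/

set_option autoImplicit false

namespace Pool.Agent.W401.Gal

open NumberField IsDedekindDomain Polynomial Pool.Agent.W401.Cheb Filter Topology

section
variable {K : Type} [Field K] [NumberField K]

/-- The `p`-adic version of the finiteness theorem -/
theorem finite_of_frob_traces (hC : ChebK) (hF : TaskFrob) {E : Type} [Field E] [TopologicalSpace E]
    [IsTopologicalRing E] [T2Space E] {n : ℕ} (hn : 0 < n)
    (hc : ∀ m : ℕ, 0 < m → m ≤ n → (m : E) ≠ 0) (ρ : GK K →* GL (Fin n) E)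
    (hcont : Continuous ρ) (hρ : Semis ρ) {Y : Set E} (hY : Y.Finite) {δ : ℝ}
    (hδ : 1 - 1 / (n : ℝ) ^ 2 < δ)
    (h : ∃ᶠ N in atTop, δ ≤ dens (fun v : HeightOneSpectrum (𝓞 K) =>
      ∀ σ : GK K, IsFrob v σ → (ρ σ : Matrix (Fin n) (Fin n) E).trace ∈ Y) N) :
    (Set.range ρ).Finite := by
  classical
  refine finite_of_traces hn hc ρ hcont hρ hY hδ ?_
  intro U hUn hU
  set Z : Set (GK K) := {g | (ρ g : Matrix (Fin n) (Fin n) E).trace ∈ Y} with hZ
  -- saturate
  set C : Set (GK K) := {g | ∃ z ∈ Z, ∃ u ∈ U, g = z * u} with hCd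
  have himg : (QuotientGroup.mk : GK K → GK K ⧸ U) '' C = (QuotientGroup.mk : GK K → GK K ⧸ U) '' Z := by
    ext q
    constructor
    · rintro ⟨_, ⟨z, hz, u, hu, rfl⟩, rfl⟩
      refine ⟨z, hz, ?_⟩
      rw [QuotientGroup.eq]
      simpa using hu
    · rintro ⟨z, hz, rfl⟩
      exact ⟨z, ⟨z, hz, 1, U.one_mem, by simp⟩, rfl⟩
  have hconj : ∀ σ ∈ Z, ∀ τ : GK K, τ * σ * τ⁻¹ ∈ Z := by
    intro σ hσ τ
    simp only [hZ, Set.mem_ofPred_eq, map_mul, Units.val_mul] at hσ ⊢
    rw [Matrix.trace_mul_comm, ← mul_assoc, ← Units.val_mul, ← map_mul, inv_mul_cancel, map_one,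
      Units.val_one, one_mul]
    exact hσ
  have hCh := hC K U hU C ?_ ?_
  · rw [himg] at hCh
    by_contra hlt
    push Not at hlt
    -- eventually the density of `C` is less than `δ`
    obtain ⟨c, hc1, hc2⟩ := exists_between hlt
    have h1 := hCh.eventually (gt_mem_nhds hc1)
    obtain ⟨N, hN1, hN2⟩ := (h.and_eventually h1).exists
    have h2 : dens (fun v : HeightOneSpectrum (𝓞 K) =>
        ∀ σ : GK K, IsFrob v σ → (ρ σ : Matrix (Fin n) (Fin n) E).trace ∈ Y) N ≤
        dens (fun v : HeightOneSpectrum (𝓞 K) => ∃ σ ∈ C, IsFrob v σ) N := by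
      have := dens_le (P := fun v : HeightOneSpectrum (𝓞 K) =>
        ∀ σ : GK K, IsFrob v σ → (ρ σ : Matrix (Fin n) (Fin n) E).trace ∈ Y)
        (Q := fun v : HeightOneSpectrum (𝓞 K) => ∃ σ ∈ C, IsFrob v σ) (T := ∅) Set.finite_empty
        (fun v hv => by
          obtain ⟨σ, hσ⟩ := (hF K).1 v
          exact Or.inl ⟨σ, ⟨σ, hv σ hσ, 1, U.one_mem, by simp⟩, hσ⟩) N
      simpa using this
    linarith
  · rintro _ ⟨z, hz, u, hu, rfl⟩ τ
    refine ⟨τ * z * τ⁻¹, hconj z hz τ, τ * u * τ⁻¹, hUn.conj_mem u hu τ, ?_⟩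
    group
  · rintro _ ⟨z, hz, u, hu, rfl⟩ w hw
    exact ⟨z, hz, u * w, U.mul_mem hu hw, by rw [mul_assoc]⟩

/-- an irreducible representation with open kernel embeds in the functions on a finite set on which the
Galois group acts continuously and transitively -/
theorem embed_functions {E : Type} [Field E] {n : ℕ} (hn : 0 < n) (ρ : GK K →* GL (Fin n) E)
    (hirr : ∀ W : Submodule E (Fin n → E), (∀ g : GK K, ∀ w ∈ W,
      (ρ g : Matrix (Fin n) (Fin n) E).mulVec w ∈ W) → W = ⊥ ∨ W = ⊤) :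
    ∃ j : (Fin n → E) →ₗ[E] (GK K ⧸ ρ.ker → E), Function.Injective j ∧
      ∀ (g : GK K) (w : Fin n → E) (x : GK K ⧸ ρ.ker),
        j ((ρ g : Matrix (Fin n) (Fin n) E).mulVec w) x = j w (g⁻¹ • x) := by
  classical
  set rb : GK K ⧸ ρ.ker →* GL (Fin n) E := QuotientGroup.kerLift ρ with hrb
  have hrbv : ∀ g : GK K, rb (g : GK K ⧸ ρ.ker) = ρ g := fun g => rfl
  let j : (Fin n → E) →ₗ[E] (GK K ⧸ ρ.ker → E) :=
    { toFun := fun w x => ((rb x)⁻¹ : GL (Fin n) E).1.mulVec w ⟨0, hn⟩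
      map_add' := by
        intro a b; ext x; simp [Matrix.mulVec_add]
      map_smul' := by
        intro a b; ext x; simp [Matrix.mulVec_smul] }
  have hj : ∀ (g : GK K) (w : Fin n → E) (x : GK K ⧸ ρ.ker),
        j ((ρ g : Matrix (Fin n) (Fin n) E).mulVec w) x = j w (g⁻¹ • x) := by
    intro g w x
    obtain ⟨y, rfl⟩ := QuotientGroup.mk_surjective x
    have h1 : (g⁻¹ • (QuotientGroup.mk y : GK K ⧸ ρ.ker)) = ((g⁻¹ * y : GK K) : GK K ⧸ ρ.ker) := rfl
    rw [h1]
    change ((rb (y : GK K ⧸ ρ.ker))⁻¹ : GL (Fin n) E).1.mulVec _ _ =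
      ((rb ((g⁻¹ * y : GK K) : GK K ⧸ ρ.ker))⁻¹ : GL (Fin n) E).1.mulVec _ _
    rw [hrbv, hrbv, Matrix.mulVec_mulVec, ← Units.val_mul, map_mul, mul_inv_rev, map_inv, inv_inv]
  refine ⟨j, ?_, hj⟩
  rw [← LinearMap.ker_eq_bot]
  have hinv : ∀ g : GK K, ∀ w ∈ LinearMap.ker j,
      (ρ g : Matrix (Fin n) (Fin n) E).mulVec w ∈ LinearMap.ker j := by
    intro g w hw
    rw [LinearMap.mem_ker] at hw ⊢
    ext x
    rw [hj, hw]
    rfl
  rcases hirr (LinearMap.ker j) hinv with h | h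
  · exact h
  · exfalso
    have h1 : j (Pi.single ⟨0, hn⟩ 1) = 0 := by
      have : (Pi.single ⟨0, hn⟩ 1 : Fin n → E) ∈ LinearMap.ker j := by rw [h]; trivial
      exact this
    have h2 := congrFun h1 ((1 : GK K) : GK K ⧸ ρ.ker)
    change ((rb ((1 : GK K) : GK K ⧸ ρ.ker))⁻¹ : GL (Fin n) E).1.mulVec _ _ = 0 at h2
    rw [hrbv, map_one, inv_one, Units.val_one, Matrix.one_mulVec] at h2
    simp at h2

end

end Pool.Agent.W401.Gal
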