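import Pool.Agent.W401.Gal.Dens

/-!
# The Deligne-Serre criterion for `GL_n`

Mod `λ` representations for infinitely many `λ` and a bound for the coefficients on average give a
complex representation with finite image.
-/

set_option autoImplicit false

namespace Pool.Agent.W401.Gal

open NumberField IsDedekindDomain Polynomial Pool.Agent.W401.Cheb Filter Topology

section
variable {K : Type} [Field K] [NumberField K]

/-- The representation `ρ` of the absolute Galois group of `K` over the field `k` is attached to the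
polynomials `r (A v)`, `v ∉ S`: for all primes `v ∉ S` of `K` not dividing the characteristic of `k`
it is unramified at `v` and the characteristic polynomial of the Frobenius elements at `v` is `r (A v)`. -/
structure Attached {k : Type} [Field k] {R : Type} [CommRing R] {n : ℕ}
    (S : Set (HeightOneSpectrum (𝓞 K))) (A : HeightOneSpectrum (𝓞 K) → R[X]) (r : R →+* k)
    (ρ : GK K →* GL (Fin n) k) : Prop where
  unram : ∀ v, v ∉ S → ((Ideal.absNorm v.asIdeal : ℕ) : k) ≠ 0 → ∀ σ, IsInert v σ → ρ σ = 1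
  frob : ∀ v, v ∉ S → ((Ideal.absNorm v.asIdeal : ℕ) : k) ≠ 0 → ∀ σ, IsFrob v σ →
    (ρ σ : Matrix (Fin n) (Fin n) k).charpoly = (A v).map r

/-- the trace coefficient -/
noncomputable def tc {R : Type} [CommRing R] (n : ℕ) (A : HeightOneSpectrum (𝓞 K) → R[X])
    (v : HeightOneSpectrum (𝓞 K)) : R := -(A v).coeff (n - 1)

/-- The coefficients `a v`, `v ∉ S`, are *tight*: for every `ε > 0` they lie in a finite set for all
`v ∉ S` outside a set of upper density at most `ε`. -/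
def Tight {R : Type} (S : Set (HeightOneSpectrum (𝓞 K))) (a : HeightOneSpectrum (𝓞 K) → R) : Prop :=
  ∀ ε : ℝ, 0 < ε → ∃ Y : Set R, Y.Finite ∧
    ∀ᶠ N in atTop, dens (fun v => v ∉ S ∧ a v ∉ Y) N ≤ ε

lemma trace_frob {k : Type} [Field k] {R : Type} [CommRing R] {n : ℕ} (hn : 0 < n)
    {S : Set (HeightOneSpectrum (𝓞 K))} {A : HeightOneSpectrum (𝓞 K) → R[X]} {r : R →+* k}
    {ρ : GK K →* GL (Fin n) k} (h : Attached S A r ρ) {v : HeightOneSpectrum (𝓞 K)} (hv : v ∉ S)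
    (hv2 : ((Ideal.absNorm v.asIdeal : ℕ) : k) ≠ 0) {σ : GK K} (hσ : IsFrob v σ) :
    (ρ σ : Matrix (Fin n) (Fin n) k).trace = r (tc n A v) := by
  have : Nonempty (Fin n) := ⟨⟨0, hn⟩⟩
  rw [Matrix.trace_eq_neg_charpoly_coeff, h.frob v hv hv2 σ hσ, tc, map_neg, Polynomial.coeff_map,
    Fintype.card_fin]

/-- the conjugacy class modulo the kernel has positive density -/
lemma dens_conj (hC : ChebK) {H : Type*} [Group H] (f : GK K →* H) (hf : IsOpen (f.ker : Set (GK K)))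
    (g : GK K) : ∃ c : ℝ, Tendsto (dens fun v : HeightOneSpectrum (𝓞 K) =>
      ∃ σ ∈ {x | ∃ τ : GK K, f x = f (τ * g * τ⁻¹)}, IsFrob v σ) atTop (𝓝 c) ∧
      1 / (Nat.card (GK K ⧸ f.ker) : ℝ) ≤ c := by
  have h1 := hC K f.ker hf {x | ∃ τ : GK K, f x = f (τ * g * τ⁻¹)} ?_ ?_
  · refine ⟨_, h1, ?_⟩
    have hfi : Finite (GK K ⧸ f.ker) := Subgroup.quotient_finite_of_isOpen f.ker hf
    refine div_le_div_of_nonneg_right ?_ (Nat.cast_nonneg _)
    have h2 : (QuotientGroup.mk g : GK K ⧸ f.ker) ∈ (QuotientGroup.mk : GK K → GK K ⧸ f.ker) ''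
        {x | ∃ τ : GK K, f x = f (τ * g * τ⁻¹)} := ⟨g, ⟨1, by simp⟩, rfl⟩
    have h3 := (Set.ncard_pos (Set.toFinite _)).mpr ⟨_, h2⟩
    exact_mod_cast h3
  · rintro σ ⟨τ, hτ⟩ ρ
    refine ⟨ρ * τ, ?_⟩
    rw [map_mul, map_mul, hτ]
    simp only [map_mul, map_inv, mul_inv_rev, mul_assoc]
  · rintro σ ⟨τ, hτ⟩ u hu
    refine ⟨τ, ?_⟩
    rw [map_mul, MonoidHom.mem_ker.mp hu, mul_one, hτ]

section
variable {k : Type} [Field k] {R : Type} [CommRing R] {n : ℕ} (hn : 0 < n)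
    {S : Set (HeightOneSpectrum (𝓞 K))} (hS : S.Finite) {A : HeightOneSpectrum (𝓞 K) → R[X]}
    {r : R →+* k} {ρ : GK K →* GL (Fin n) k} (hopen : IsOpen (ρ.ker : Set (GK K)))
    (hρ : Semis ρ) (h : Attached S A r ρ)

include hn hS hopen hρ h in
/-- bound for the size of the image -/
lemma bound (hC : ChebK) (hc : ∀ m : ℕ, 0 < m → m ≤ n → (m : k) ≠ 0) {Y : Set R} (hY : Y.Finite)
    (hYd : ∀ᶠ N in atTop, dens (fun v => v ∉ S ∧ tc n A v ∉ Y) N ≤ 1 / (2 * (n : ℝ) ^ 2)) :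
    (Nat.card (GK K ⧸ ρ.ker) : ℝ) ≤ 2 * (Y.ncard + 1 : ℝ) ^ (n ^ 2) := by
  classical
  have hfi : Finite (GK K ⧸ ρ.ker) := Subgroup.quotient_finite_of_isOpen ρ.ker hopen
  set rb : GK K ⧸ ρ.ker →* GL (Fin n) k := QuotientGroup.kerLift ρ with hrb
  have hrbv : ∀ g : GK K, rb (g : GK K ⧸ ρ.ker) = ρ g := fun g => rfl
  have hsem : Semis rb := by
    intro W hW
    obtain ⟨W', h1, h2⟩ := hρ W fun g w hw => hW (g : GK K ⧸ ρ.ker) w hw
    refine ⟨W', fun q w hw => ?_, h2⟩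
    obtain ⟨g, rfl⟩ := QuotientGroup.mk_surjective q
    exact h1 g w hw
  set Yk : Set k := r '' Y with hYk
  have hYkf : Yk.Finite := hY.image r
  set C : Set (GK K) := {g | (ρ g : Matrix (Fin n) (Fin n) k).trace ∉ Yk} with hCd
  have hCh := hC K ρ.ker hopen C ?_ ?_
  · have h1 : ((((QuotientGroup.mk : GK K → GK K ⧸ ρ.ker) '' C).ncard : ℝ) /
        (Nat.card (GK K ⧸ ρ.ker) : ℝ)) ≤ 1 / (2 * (n : ℝ) ^ 2) := by
      by_contra hlt
      push Not at hlt
      obtain ⟨v, ⟨σ, hσC, hσ⟩, h2, h3⟩ := exists_prime hCh hlt hYd.frequently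
        (hS.union (finite_char (K := K) (k := k)))
      simp only [Set.mem_union, not_or] at h3
      have h4 : tc n A v ∈ Y := by
        by_contra h5
        exact h2 ⟨h3.1, h5⟩
      apply hσC
      rw [trace_frob hn h h3.1 h3.2 hσ]
      exact ⟨_, h4, rfl⟩
    have h2 : (QuotientGroup.mk : GK K → GK K ⧸ ρ.ker) '' C =
        {q | (rb q : Matrix (Fin n) (Fin n) k).trace ∉ Yk} := by
      ext q
      constructor
      · rintro ⟨g, hg, rfl⟩
        exact hg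
      · intro hq
        obtain ⟨g, rfl⟩ := QuotientGroup.mk_surjective q
        exact ⟨g, hq, rfl⟩
    rw [h2] at h1
    have h3 := card_bound hn rb (QuotientGroup.kerLift_injective ρ) hsem hc hYkf (by
      rw [div_le_iff₀ (by exact_mod_cast Nat.card_pos)] at h1
      exact h1)
    refine h3.trans ?_
    have h4 : Yk.ncard ≤ Y.ncard := Set.ncard_image_le hY
    gcongr
  · intro σ hσ τ
    simp only [hCd, Set.mem_ofPred_eq, map_mul, Units.val_mul] at hσ ⊢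
    rw [Matrix.trace_mul_comm, ← mul_assoc, ← Units.val_mul, ← map_mul, inv_mul_cancel, map_one,
      Units.val_one, one_mul]
    exact hσ
  · intro σ hσ u hu
    simp only [hCd, Set.mem_ofPred_eq, map_mul, MonoidHom.mem_ker.mp hu, mul_one] at hσ ⊢
    exact hσ

include hn hS hopen h in
/-- every trace is a reduction of an element of `Y` -/
lemma trace_mem (hC : ChebK) {Y : Set R} {B : ℝ} (hB0 : 0 < B)
    (hB : (Nat.card (GK K ⧸ ρ.ker) : ℝ) ≤ B)
    (hYd : ∀ᶠ N in atTop, dens (fun v => v ∉ S ∧ tc n A v ∉ Y) N ≤ 1 / (2 * B)) (g : GK K) :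
    ∃ y ∈ Y, (ρ g : Matrix (Fin n) (Fin n) k).trace = r y := by
  have hfi : Finite (GK K ⧸ ρ.ker) := Subgroup.quotient_finite_of_isOpen ρ.ker hopen
  obtain ⟨c, hc1, hc2⟩ := dens_conj hC ρ hopen g
  have hlt : 1 / (2 * B) < c := by
    have h0 : (0 : ℝ) < Nat.card (GK K ⧸ ρ.ker) := by exact_mod_cast Nat.card_pos
    have h1 : 1 / (2 * B) < 1 / B := by
      apply one_div_lt_one_div_of_lt hB0
      linarith
    have h2 : 1 / B ≤ 1 / (Nat.card (GK K ⧸ ρ.ker) : ℝ) := one_div_le_one_div_of_le h0 hB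
    linarith
  obtain ⟨v, ⟨σ, ⟨τ, hτ⟩, hσ⟩, h2, h3⟩ := exists_prime hc1 hlt hYd.frequently
    (hS.union (finite_char (K := K) (k := k)))
  simp only [Set.mem_union, not_or] at h3
  have h4 : tc n A v ∈ Y := by
    by_contra h5
    exact h2 ⟨h3.1, h5⟩
  refine ⟨_, h4, ?_⟩
  rw [← trace_frob hn h h3.1 h3.2 hσ, hτ, map_mul, map_mul, Units.val_mul, Units.val_mul,
    Matrix.trace_mul_comm, ← mul_assoc, ← Units.val_mul, ← map_mul, inv_mul_cancel, map_one,
    Units.val_one, one_mul]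

end

/-- **Deligne-Serre criterion for `GL_n`.** -/
theorem deligne_serre (hC : ChebK) (hF : TaskFrob) (hP : TaskProd) (F : Type) [Field F]
    [NumberField F] {n : ℕ} (hn : 0 < n) {S : Set (HeightOneSpectrum (𝓞 K))} (hS : S.Finite)
    (A : HeightOneSpectrum (𝓞 K) → (𝓞 F)[X]) (hT : Tight S (tc n A))
    (Λ : Type) [Infinite Λ] (k : Λ → Type) [∀ l, Field (k l)] (r : ∀ l, 𝓞 F →+* k l)
    (hr : ∀ a : 𝓞 F, a ≠ 0 → {l : Λ | r l a = 0}.Finite)
    (ρ : ∀ l, GK K →* GL (Fin n) (k l)) (hopen : ∀ l, IsOpen ((ρ l).ker : Set (GK K)))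
    (hsem : ∀ l, Semis (ρ l)) (hatt : ∀ l, Attached S A (r l) (ρ l)) (ι : F →+* ℂ) :
    ∃ ρ' : GK K →* GL (Fin n) ℂ, IsOpen (ρ'.ker : Set (GK K)) ∧
      Attached S A (ι.comp (algebraMap (𝓞 F) F)) ρ' := by
  classical
  -- characteristic conditions
  have hnat : ∀ m : ℕ, m ≠ 0 → {l : Λ | ((m : ℕ) : k l) = 0}.Finite := by
    intro m hm
    refine (hr (m : 𝓞 F) (by exact_mod_cast hm)).subset fun l hl => ?_
    simpa using hl
  set Λ₀ : Set Λ := {l | ((n.factorial : ℕ) : k l) ≠ 0} with hΛ₀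
  have hΛ₀c : (Λ₀ᶜ).Finite := (hnat _ n.factorial_ne_zero).subset fun l hl => by
    simpa [hΛ₀] using hl
  have hc : ∀ l ∈ Λ₀, ∀ m : ℕ, 0 < m → m ≤ n → (m : k l) ≠ 0 := by
    intro l hl m hm hmn h0
    apply hl
    obtain ⟨c, hc⟩ := Nat.dvd_factorial hm hmn
    rw [hc, Nat.cast_mul, h0, zero_mul]
  -- the bound
  obtain ⟨Y₀, hY₀, hY₀d⟩ := hT (1 / (2 * (n : ℝ) ^ 2)) (by positivity)
  set B : ℝ := 2 * (Y₀.ncard + 1 : ℝ) ^ (n ^ 2) with hBdef
  have hB0 : 0 < B := by positivity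
  have hB : ∀ l ∈ Λ₀, (Nat.card (GK K ⧸ (ρ l).ker) : ℝ) ≤ B := fun l hl =>
    bound hn hS (hopen l) (hsem l) (hatt l) hC (hc l hl) hY₀ hY₀d
  obtain ⟨Y, hY, hYd⟩ := hT (1 / (2 * B)) (by positivity)
  have htr : ∀ l ∈ Λ₀, ∀ g : GK K, ∃ y ∈ Y, (ρ l g : Matrix (Fin n) (Fin n) (k l)).trace = r l y :=
    fun l hl g => trace_mem hn hS (hopen l) (hatt l) hC hB0 (hB l hl) hYd g
  -- infinitely many indices outside a finite set
  have hinf : ∀ T : Set Λ, T.Finite → (Λ₀ \ T).Infinite := by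
    intro T hT'
    have h1 : (Λ₀ᶜ ∪ T).Finite := hΛ₀c.union hT'
    have h2 : (Λ₀ \ T) = (Λ₀ᶜ ∪ T)ᶜ := by
      ext l; simp
    rw [h2]
    exact h1.infinite_compl
  have hNv : ∀ v : HeightOneSpectrum (𝓞 K), {l : Λ | ((Ideal.absNorm v.asIdeal : ℕ) : k l) = 0}.Finite := by
    intro v
    refine hnat _ ?_
    rw [Ne, Ideal.absNorm_eq_zero_iff]
    exact v.ne_bot
  -- the coefficients lie in `Y`
  have haY : ∀ v, v ∉ S → tc n A v ∈ Y := by
    intro v hv
    by_contra hvY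
    obtain ⟨σ, hσ⟩ := (hF K).1 v
    have hfin : (⋃ y ∈ Y, {l : Λ | r l (tc n A v - y) = 0}).Finite := by
      refine hY.biUnion fun y hy => hr _ ?_
      intro h0
      exact hvY ((sub_eq_zero.mp h0) ▸ hy)
    obtain ⟨l, hl, hl2⟩ := (hinf _ ((hNv v).union hfin)).nonempty
    simp only [Set.mem_union, not_or] at hl2
    obtain ⟨y, hy, hy2⟩ := htr l hl σ
    rw [trace_frob hn (hatt l) hv hl2.1 hσ] at hy2
    apply hl2.2
    simp only [Set.mem_iUnion]
    exact ⟨y, hy, by rw [Set.mem_ofPred_eq, map_sub, hy2, sub_self]⟩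
  -- indices for which the reduction is injective on `Y`
  set Λ₁ : Set Λ := {l | l ∈ Λ₀ ∧ ∀ y ∈ Y, ∀ y' ∈ Y, r l y = r l y' → y = y'} with hΛ₁
  have hbad : (⋃ y ∈ Y, ⋃ y' ∈ Y, {l : Λ | r l y = r l y' ∧ y ≠ y'}).Finite := by
    refine hY.biUnion fun y _ => hY.biUnion fun y' _ => ?_
    by_cases hyy : y = y'
    · subst hyy
      simp
    · refine (hr (y - y') (sub_ne_zero.mpr hyy)).subset fun l hl => ?_
      rw [Set.mem_ofPred_eq, map_sub, hl.1, sub_self]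
  have hΛ₁inf : ∀ T : Set Λ, T.Finite → (Λ₁ \ T).Infinite := by
    intro T hT'
    refine (hinf _ (hbad.union hT')).mono fun l hl => ?_
    simp only [Set.mem_sdiff, Set.mem_union, not_or] at hl
    refine ⟨⟨hl.1, fun y hy y' hy' hyy => ?_⟩, hl.2.2⟩
    by_contra hne
    apply hl.2.1
    simp only [Set.mem_iUnion]
    exact ⟨y, hy, y', hy', hyy, hne⟩
  -- independence of the index
  have hind : ∀ l ∈ Λ₁, ∀ l' ∈ Λ₁, ∀ g : GK K, ∀ y ∈ Y, ∀ y' ∈ Y,
      (ρ l g : Matrix (Fin n) (Fin n) (k l)).trace = r l y →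
      (ρ l' g : Matrix (Fin n) (Fin n) (k l')).trace = r l' y' → y = y' := by
    intro l hl l' hl' g y hy y' hy' h1 h2
    have hopen2 : IsOpen (((ρ l).prod (ρ l')).ker : Set (GK K)) := by
      have : (((ρ l).prod (ρ l')).ker : Set (GK K)) = ((ρ l).ker : Set (GK K)) ∩ (ρ l').ker := by
        ext x
        simp [MonoidHom.mem_ker, Prod.ext_iff]
      rw [this]
      exact (hopen l).inter (hopen l')
    obtain ⟨c, hc1, hc2⟩ := dens_conj hC ((ρ l).prod (ρ l')) hopen2 g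
    have hfi : Finite (GK K ⧸ ((ρ l).prod (ρ l')).ker) := Subgroup.quotient_finite_of_isOpen _ hopen2
    have hcpos : 0 < c := by
      refine lt_of_lt_of_le ?_ hc2
      have : (0 : ℝ) < Nat.card (GK K ⧸ ((ρ l).prod (ρ l')).ker) := by exact_mod_cast Nat.card_pos
      positivity
    obtain ⟨v, ⟨σ, ⟨τ, hτ⟩, hσ⟩, h3⟩ := exists_prime' hc1 hcpos
      ((hS.union (finite_char (K := K) (k := k l))).union (finite_char (K := K) (k := k l')))
    simp only [Set.mem_union, not_or] at h3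
    have hτ1 : ρ l σ = ρ l (τ * g * τ⁻¹) := congrArg Prod.fst hτ
    have hτ2 : ρ l' σ = ρ l' (τ * g * τ⁻¹) := congrArg Prod.snd hτ
    have hav := haY v h3.1.1
    have e1 : r l y = r l (tc n A v) := by
      rw [← h1, ← trace_frob hn (hatt l) h3.1.1 h3.1.2 hσ, hτ1, map_mul, map_mul, Units.val_mul,
        Units.val_mul, Matrix.trace_mul_comm (ρ l τ * ρ l g : Matrix (Fin n) (Fin n) (k l)), ← mul_assoc,
        ← Units.val_mul (ρ l τ⁻¹), ← map_mul, inv_mul_cancel, map_one, Units.val_one, one_mul]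
    have e2 : r l' y' = r l' (tc n A v) := by
      rw [← h2, ← trace_frob hn (hatt l') h3.1.1 h3.2 hσ, hτ2, map_mul, map_mul, Units.val_mul,
        Units.val_mul, Matrix.trace_mul_comm (ρ l' τ * ρ l' g : Matrix (Fin n) (Fin n) (k l')), ← mul_assoc,
        ← Units.val_mul (ρ l' τ⁻¹), ← map_mul, inv_mul_cancel, map_one, Units.val_one, one_mul]
    rw [hl.2 y hy _ hav e1, hl'.2 y' hy' _ hav e2]
  -- the kernels agree
  have hker : ∀ l ∈ Λ₁, ∀ l' ∈ Λ₁, (ρ l).ker ≤ (ρ l').ker := by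
    intro l hl l' hl' g hg
    rw [MonoidHom.mem_ker] at hg ⊢
    obtain ⟨d, s, -, hs⟩ := exists_sep (hsem l') (hc l' hl'.1)
    rw [hs g 1 fun i => ?_, map_one]
    obtain ⟨y1, hy1, e1⟩ := htr l' hl'.1 (s i * g)
    obtain ⟨y2, hy2, e2⟩ := htr l' hl'.1 (s i * 1)
    obtain ⟨y3, hy3, e3⟩ := htr l hl.1 (s i * g)
    have e4 : (ρ l (s i * 1) : Matrix (Fin n) (Fin n) (k l)).trace = r l y3 := by
      rw [← e3, map_mul, map_mul, hg, map_one]
    rw [e1, e2, ← hind l hl l' hl' _ y3 hy3 y1 hy1 e3 e1, ← hind l hl l' hl' _ y3 hy3 y2 hy2 e4 e2]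
  -- glue
  obtain ⟨l₀, hl₀⟩ := (hΛ₁inf ∅ Set.finite_empty).nonempty
  rw [Set.sdiff_empty] at hl₀
  set U := (ρ l₀).ker with hU
  have hUopen : IsOpen (U : Set (GK K)) := hopen l₀
  have hfi : Finite (GK K ⧸ U) := Subgroup.quotient_finite_of_isOpen U hUopen
  have hΛ₁I : Infinite Λ₁ := by
    have := hΛ₁inf ∅ Set.finite_empty
    rw [Set.sdiff_empty] at this
    exact this.to_subtype
  have hr' : ∀ a : 𝓞 F, a ≠ 0 → {l : Λ₁ | r (l : Λ) a = 0}.Finite := by
    intro a ha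
    exact (hr a ha).preimage (f := fun l : Λ₁ => (l : Λ)) (fun _ _ _ _ h => Subtype.ext h)
  obtain ⟨ρ'', hρ''⟩ := hP F Λ₁ (fun l => k l) (fun l => r l) hr' (GK K ⧸ U) n
    (fun l => QuotientGroup.lift U (ρ l) fun x hx => (hker l₀ hl₀ l l.2 hx : x ∈ (ρ l).ker)) ι
  refine ⟨ρ''.comp (QuotientGroup.mk' U), ?_, ?_⟩
  · refine Subgroup.isOpen_mono (H₁ := U) (fun x hx => ?_) hUopen
    rw [MonoidHom.mem_ker, MonoidHom.comp_apply]
    have : (QuotientGroup.mk' U) x = 1 := (QuotientGroup.eq_one_iff x).mpr hx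
    rw [this, map_one]
  · refine ⟨fun v hv _ σ hσ => ?_, fun v hv _ σ hσ => ?_⟩
    · obtain ⟨l, hl, hl2⟩ := (hΛ₁inf _ (hNv v)).nonempty
      have h1 : ρ l σ = 1 := (hatt l).unram v hv hl2 σ hσ
      have h2 : σ ∈ U := hker l hl l₀ hl₀ (MonoidHom.mem_ker.mpr h1)
      rw [MonoidHom.comp_apply]
      have : (QuotientGroup.mk' U) σ = 1 := (QuotientGroup.eq_one_iff σ).mpr h2
      rw [this, map_one]
    · rw [MonoidHom.comp_apply]
      refine hρ'' _ (A v) ?_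
      refine ((hNv v).preimage (f := fun l : Λ₁ => (l : Λ))
        (fun _ _ _ _ h => Subtype.ext h)).subset fun l hl => ?_
      by_contra h0
      exact hl ((hatt l).frob v hv h0 σ hσ)

end

end Pool.Agent.W401.Gal
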