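import Pool.Agent.W401.Gal.DSMain

/-!
# Irreducibility from mean squares
-/

set_option autoImplicit false

namespace Pool.Agent.W401.Gal

open NumberField IsDedekindDomain Polynomial Pool.Agent.W401.Cheb Filter Topology Module

/-- A reducible semisimple representation of a finite group has mean square at least two. -/
theorem two_le_char {E : Type} [Field E] [CharZero E] {Q : Type} [Group Q] [Fintype Q] {n : ℕ}
    (rb : Q →* GL (Fin n) E) {W W' : Submodule E (Fin n → E)}
    (hW : ∀ g, ∀ w ∈ W, (rb g : Matrix (Fin n) (Fin n) E).mulVec w ∈ W)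
    (hW' : ∀ g, ∀ w ∈ W', (rb g : Matrix (Fin n) (Fin n) E).mulVec w ∈ W')
    (hc : IsCompl W W') (h0 : W ≠ ⊥) (h1 : W ≠ ⊤) (j : E →+* ℂ) :
    2 * (Fintype.card Q : ℝ) ≤ ∑ q, ‖j (rb q : Matrix (Fin n) (Fin n) E).trace‖ ^ 2 := by
  classical
  let r : Representation E Q (Fin n → E) :=
    { toFun := fun q => Matrix.toLin' (rb q : Matrix (Fin n) (Fin n) E)
      map_one' := by simp [Module.End.one_eq_id]
      map_mul' := fun a b => by
        rw [map_mul, Units.val_mul, Matrix.toLin'_mul]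
        rfl }
  have hr : ∀ q w, r q w = (rb q : Matrix (Fin n) (Fin n) E).mulVec w := fun q w => rfl
  have hchar : ∀ q, r.character q = (rb q : Matrix (Fin n) (Fin n) E).trace := fun q =>
    Matrix.trace_toLin'_eq _
  -- two independent intertwining maps
  let p : (Fin n → E) →ₗ[E] (Fin n → E) := W.subtype ∘ₗ W.projectionOnto W' hc
  have hpW : ∀ w ∈ W, p w = w := by
    intro w hw
    have := Submodule.projectionOnto_apply_left hc ⟨w, hw⟩
    simp only [p, LinearMap.comp_apply, this]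
    rfl
  have hpW' : ∀ w ∈ W', p w = 0 := by
    intro w hw
    have := Submodule.projectionOnto_apply_right hc ⟨w, hw⟩
    simp only [p, LinearMap.comp_apply]
    rw [show W.projectionOnto W' hc w = 0 from this]
    rfl
  have hpc : ∀ (g : Q) (v : Fin n → E), p (r g v) = r g (p v) := by
    intro g v
    obtain ⟨a, ha, b, hb, rfl⟩ := Submodule.mem_sup.mp (show v ∈ W ⊔ W' by
      rw [hc.sup_eq_top]; trivial)
    rw [map_add, map_add, map_add, map_add, hpW a ha, hpW' b hb, hr g a, hr g b,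
      hpW _ (hW g a ha), hpW' _ (hW' g b hb), map_zero]
  let P : Representation.IntertwiningMap r r :=
    LinearMap.intertwiningMap_of_isIntertwiningMap r r p hpc
  have hlin : LinearIndependent E ![Representation.IntertwiningMap.id r, P] := by
    rw [LinearIndependent.pair_iff]
    intro s t hst
    have h2 : ∀ v, s • v + t • p v = 0 := by
      intro v
      have h3 := DFunLike.congr_fun hst v
      have hP : ∀ v, P v = p v := fun v => rfl
      simpa [hP] using h3
    obtain ⟨b, hb, hb0⟩ : ∃ b ∈ W', b ≠ 0 := by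
      by_contra hcon
      push Not at hcon
      apply h1
      have : W' = ⊥ := by
        rw [Submodule.eq_bot_iff]; exact hcon
      rw [this] at hc
      exact hc.sup_eq_top.symm ▸ (by simp)
    obtain ⟨a, ha, ha0⟩ := W.ne_bot_iff.mp h0
    have hs : s = 0 := by
      have := h2 b
      rw [hpW' b hb, smul_zero, add_zero] at this
      exact (smul_eq_zero.mp this).resolve_right hb0
    refine ⟨hs, ?_⟩
    have := h2 a
    rw [hpW a ha, hs, zero_smul, zero_add] at this
    exact (smul_eq_zero.mp this).resolve_right ha0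
  have hfr : 2 ≤ finrank E (Representation.IntertwiningMap r r) := by
    have := hlin.fintype_card_le_finrank
    simpa using this
  have hcard : (Nat.card Q : E) ≠ 0 := by
    have : Nat.card Q ≠ 0 := Nat.card_pos.ne'
    exact_mod_cast this
  let _ : Invertible (Nat.card Q : E) := invertibleOfNonzero hcard
  have hmain := Representation.card_inv_mul_sum_char_mul_char_eq_finrank r r
  have hmain2 : ∑ g : Q, j (r.character g) * j (r.character g⁻¹) =
      (Nat.card Q : ℂ) * (finrank E (Representation.IntertwiningMap r r) : ℂ) := by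
    have h3 : ∑ g : Q, r.character g * r.character g⁻¹ =
        (Nat.card Q : E) * (finrank E (Representation.IntertwiningMap r r) : E) := by
      rw [← hmain, ← mul_assoc, mul_inv_cancel₀ hcard, one_mul]
    have h4 := congrArg j h3
    rw [map_sum, map_mul, map_natCast, map_natCast] at h4
    rw [← h4]
    exact Finset.sum_congr rfl fun g _ => (map_mul j _ _).symm
  have hnorm : (Nat.card Q : ℝ) * (finrank E (Representation.IntertwiningMap r r) : ℝ) ≤
      ∑ g : Q, ‖j (r.character g)‖ ^ 2 := by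
    have h5 : ‖∑ g : Q, j (r.character g) * j (r.character g⁻¹)‖ =
        (Nat.card Q : ℝ) * (finrank E (Representation.IntertwiningMap r r) : ℝ) := by
      rw [hmain2, norm_mul, Complex.norm_natCast, Complex.norm_natCast]
    rw [← h5]
    refine (norm_sum_le _ _).trans ?_
    have h6 : ∑ g : Q, ‖j (r.character g⁻¹)‖ ^ 2 = ∑ g : Q, ‖j (r.character g)‖ ^ 2 :=
      Equiv.sum_comp (Equiv.inv Q) fun g => ‖j (r.character g)‖ ^ 2
    have h7 : ∀ g : Q, ‖j (r.character g) * j (r.character g⁻¹)‖ ≤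
        (‖j (r.character g)‖ ^ 2 + ‖j (r.character g⁻¹)‖ ^ 2) / 2 := by
      intro g
      rw [norm_mul]
      nlinarith [sq_nonneg (‖j (r.character g)‖ - ‖j (r.character g⁻¹)‖)]
    refine (Finset.sum_le_sum fun g _ => h7 g).trans ?_
    rw [← Finset.sum_div, Finset.sum_add_distrib, h6]
    linarith
  have h8 : ∑ g : Q, ‖j (r.character g)‖ ^ 2 =
      ∑ q, ‖j (rb q : Matrix (Fin n) (Fin n) E).trace‖ ^ 2 :=
    Finset.sum_congr rfl fun q _ => by rw [hchar]
  rw [← h8]
  refine le_trans ?_ hnorm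
  rw [Nat.card_eq_fintype_card, mul_comm]
  have : (2 : ℝ) ≤ finrank E (Representation.IntertwiningMap r r) := by exact_mod_cast hfr
  gcongr

section
variable {K : Type} [Field K] [NumberField K]

/-- the mean of a class function of a finite Galois group over the primes, lower bound -/
theorem mean_lower (hC : ChebK) (hF : TaskFrob) (U : Subgroup (GK K)) [U.Normal]
    (hU : IsOpen (U : Set (GK K))) [Fintype (GK K ⧸ U)] (f : GK K ⧸ U → ℝ) (hf0 : ∀ q, 0 ≤ f q)
    (hf : ∀ σ τ : GK K, f ((τ * σ * τ⁻¹ : GK K) : GK K ⧸ U) = f (σ : GK K ⧸ U))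
    {T : Set (HeightOneSpectrum (𝓞 K))} (hT : T.Finite) (b : HeightOneSpectrum (𝓞 K) → ℂ)
    (hb : ∀ v, v ∉ T → ∀ σ, IsFrob v σ → f (σ : GK K ⧸ U) = ‖b v‖ ^ 2) {c : ℝ}
    (hc : c < (∑ q, f q) / Fintype.card (GK K ⧸ U)) :
    ∀ᶠ N : ℕ in atTop, c * Nat.primeCounting N < sumsq T b N := by
  classical
  set V : Finset ℝ := Finset.univ.image f with hV
  let Ct : ℝ → Set (GK K) := fun t => {g | f (g : GK K ⧸ U) = t}
  have hCt : ∀ t : ℝ, Tendsto (dens fun v : HeightOneSpectrum (𝓞 K) => ∃ σ ∈ Ct t, IsFrob v σ) atTop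
      (𝓝 (((Finset.univ.filter fun q => f q = t).card : ℝ) / Fintype.card (GK K ⧸ U))) := by
    intro t
    have h1 := hC K U hU (Ct t) ?_ ?_
    · have h2 : (QuotientGroup.mk : GK K → GK K ⧸ U) '' (Ct t) =
          ((Finset.univ.filter fun q => f q = t : Finset (GK K ⧸ U)) : Set (GK K ⧸ U)) := by
        ext q
        simp only [Finset.coe_filter, Finset.mem_univ, true_and, Set.mem_ofPred_eq]
        constructor
        · rintro ⟨g, hg, rfl⟩
          exact hg
        · intro hq
          obtain ⟨g, rfl⟩ := QuotientGroup.mk_surjective q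
          exact ⟨g, hq, rfl⟩
      rw [h2, Set.ncard_coe_finset, Nat.card_eq_fintype_card] at h1
      exact h1
    · intro σ hσ τ
      change f _ = t
      rw [hf]
      exact hσ
    · intro σ hσ u hu
      change f _ = t
      rw [QuotientGroup.mk_mul_of_mem σ hu]
      exact hσ
  have hlim : Tendsto (fun N : ℕ => ∑ t ∈ V, t * (dens (fun v : HeightOneSpectrum (𝓞 K) =>
      ∃ σ ∈ Ct t, IsFrob v σ) N - (T.ncard : ℝ) / (Nat.primeCounting N : ℝ))) atTop
      (𝓝 (∑ t ∈ V, t * (((Finset.univ.filter fun q => f q = t).card : ℝ) /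
        Fintype.card (GK K ⧸ U) - 0))) := by
    refine tendsto_finsetSum _ fun t _ => ?_
    exact ((hCt t).sub (tendsto_const_div _)).const_mul t
  have hval : (∑ t ∈ V, t * (((Finset.univ.filter fun q => f q = t).card : ℝ) /
        Fintype.card (GK K ⧸ U) - 0)) = (∑ q, f q) / Fintype.card (GK K ⧸ U) := by
    have h1 : ∑ q, f q = ∑ t ∈ V, t * ((Finset.univ.filter fun q => f q = t).card : ℝ) := by
      rw [← Finset.sum_fiberwise_of_maps_to (s := Finset.univ) (t := V) (g := f)
        (fun q _ => Finset.mem_image_of_mem f (Finset.mem_univ q))]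
      refine Finset.sum_congr rfl fun t _ => ?_
      rw [Finset.sum_congr rfl fun q hq => (Finset.mem_filter.mp hq).2, Finset.sum_const,
        nsmul_eq_mul, mul_comm]
    rw [h1, Finset.sum_div]
    refine Finset.sum_congr rfl fun t _ => ?_
    rw [sub_zero, mul_div_assoc]
  rw [hval] at hlim
  have hev := hlim.eventually (lt_mem_nhds hc)
  filter_upwards [hev, eventually_ge_atTop 2] with N hN hN2
  have hpc : 0 < Nat.primeCounting N := by
    have : Nat.primeCounting 2 ≤ Nat.primeCounting N := Nat.monotone_primeCounting hN2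
    have h2 : Nat.primeCounting 2 = 1 := by decide
    omega
  have hpi : (0 : ℝ) < Nat.primeCounting N := by exact_mod_cast hpc
  rw [← lt_div_iff₀ hpi]
  refine hN.trans_le ?_
  have hfin := finite_P (fun v : HeightOneSpectrum (𝓞 K) => v ∉ T) N
  set Fs : Finset (HeightOneSpectrum (𝓞 K)) := hfin.toFinset with hFs
  have hmemF : ∀ v, v ∈ Fs ↔ Ideal.absNorm v.asIdeal ≤ N ∧ v ∉ T := by
    intro v
    rw [hFs, Set.Finite.mem_toFinset]
    rfl
  have hsum : sumsq T b N = ∑ v ∈ Fs, ‖b v‖ ^ 2 := by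
    unfold sumsq
    rw [finsum_mem_eq_finite_toFinset_sum _ hfin]
  -- the classes
  have hcls : ∀ v ∈ Fs, ∀ t : ℝ, (∃ σ ∈ Ct t, IsFrob v σ) ↔ t = ‖b v‖ ^ 2 := by
    intro v hv t
    rw [hmemF] at hv
    constructor
    · rintro ⟨σ, hσ1, hσ2⟩
      rw [← hb v hv.2 σ hσ2]
      exact hσ1.symm
    · rintro rfl
      obtain ⟨σ, hσ⟩ := (hF K).1 v
      exact ⟨σ, hb v hv.2 σ hσ, hσ⟩
  have hbV : ∀ v ∈ Fs, ‖b v‖ ^ 2 ∈ V := by
    intro v hv
    obtain ⟨σ, hσ⟩ := (hF K).1 v
    rw [← hb v ((hmemF v).mp hv).2 σ hσ]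
    exact Finset.mem_image_of_mem f (Finset.mem_univ _)
  have hsum2 : ∑ v ∈ Fs, ‖b v‖ ^ 2 =
      ∑ t ∈ V, t * ((Fs.filter fun v => ‖b v‖ ^ 2 = t).card : ℝ) := by
    rw [← Finset.sum_fiberwise_of_maps_to (s := Fs) (t := V) (g := fun v => ‖b v‖ ^ 2) hbV]
    refine Finset.sum_congr rfl fun t _ => ?_
    rw [Finset.sum_congr rfl fun q hq => (Finset.mem_filter.mp hq).2, Finset.sum_const,
      nsmul_eq_mul, mul_comm]
  rw [hsum, hsum2, Finset.sum_div]
  refine Finset.sum_le_sum fun t ht => ?_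
  rw [mul_div_assoc]
  have ht0 : 0 ≤ t := by
    obtain ⟨q, _, rfl⟩ := Finset.mem_image.mp ht
    exact hf0 q
  refine mul_le_mul_of_nonneg_left ?_ ht0
  rw [dens_eq, ← sub_div]
  refine div_le_div_of_nonneg_right ?_ hpi.le
  have h1 : {v : HeightOneSpectrum (𝓞 K) | Ideal.absNorm v.asIdeal ≤ N ∧ ∃ σ ∈ Ct t, IsFrob v σ} ⊆
      ((Fs.filter fun v => ‖b v‖ ^ 2 = t : Finset (HeightOneSpectrum (𝓞 K))) :
        Set (HeightOneSpectrum (𝓞 K))) ∪ T := by
    rintro v ⟨h2, h3⟩
    by_cases hvT : v ∈ T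
    · exact Or.inr hvT
    · left
      have hvF : v ∈ Fs := (hmemF v).mpr ⟨h2, hvT⟩
      simp only [Finset.coe_filter, Set.mem_ofPred_eq]
      exact ⟨hvF, ((hcls v hvF t).mp h3).symm⟩
  have h2 := (Set.ncard_le_ncard h1 ((Finset.finite_toSet _).union hT)).trans
    (Set.ncard_union_le _ _)
  rw [Set.ncard_coe_finset] at h2
  have h3 : (({v : HeightOneSpectrum (𝓞 K) | Ideal.absNorm v.asIdeal ≤ N ∧
      ∃ σ ∈ Ct t, IsFrob v σ}).ncard : ℝ) ≤
      ((Fs.filter fun v => ‖b v‖ ^ 2 = t).card : ℝ) + (T.ncard : ℝ) := by exact_mod_cast h2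
  linarith

end

end Pool.Agent.W401.Gal
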