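import Pool.Agent.W401.Gal.ProdNF
import Pool.Agent.W401.Gal.IrrMain

/-!
# Artin motives: the representation over a number field
-/

set_option autoImplicit false

namespace Pool.Agent.W401.Gal

open NumberField IsDedekindDomain Polynomial Pool.Agent.W401.Cheb Filter Topology Module

/-- A reducible semisimple representation of a finite group has character norm at least two, in the
coefficient field. -/
theorem char_norm {E : Type} [Field E] [CharZero E] {Q : Type} [Group Q] [Fintype Q] {n : ℕ}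
    (rb : Q →* GL (Fin n) E) {W W' : Submodule E (Fin n → E)}
    (hW : ∀ g, ∀ w ∈ W, (rb g : Matrix (Fin n) (Fin n) E).mulVec w ∈ W)
    (hW' : ∀ g, ∀ w ∈ W', (rb g : Matrix (Fin n) (Fin n) E).mulVec w ∈ W')
    (hc : IsCompl W W') (h0 : W ≠ ⊥) (h1 : W ≠ ⊤) :
    ∃ m : ℕ, 2 ≤ m ∧ ∑ q, (rb q : Matrix (Fin n) (Fin n) E).trace *
      (rb q⁻¹ : Matrix (Fin n) (Fin n) E).trace = (Fintype.card Q : E) * (m : E) := by
  classical
  let r : Representation E Q (Fin n → E) :=
    { toFun := fun q => Matrix.toLin' (rb q : Matrix (Fin n) (Fin n) E)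
      map_one' := by simp [Module.End.one_eq_id]
      map_mul' := fun a b => by
        rw [map_mul, Units.val_mul, Matrix.toLin'_mul]
        rfl }
  have hr : ∀ q w, r q w = (rb q : Matrix (Fin n) (Fin n) E).mulVec w := fun q w => rfl
  have hchar : ∀ q, r.character q = (rb q : Matrix (Fin n) (Fin n) E).trace := fun q =>
    Matrix.trace_toLin'_eq _
  let p : (Fin n → E) →ₗ[E] (Fin n → E) := W.subtype ∘ₗ W.projectionOnto W' hc
  have hpW : ∀ w ∈ W, p w = w := by
    intro w hw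
    have := Submodule.projectionOnto_apply_left hc ⟨w, hw⟩
    simp only [p, LinearMap.comp_apply, this]
    rfl
  have hpW' : ∀ w ∈ W', p w = 0 := by
    intro w hw
    have := Submodule.projectionOnto_apply_right hc ⟨w, hw⟩
    simp only [p, LinearMap.comp_apply]
    rw [show W.projectionOnto W' hc w = 0 from this]
    rfl
  have hpc : ∀ (g : Q) (v : Fin n → E), p (r g v) = r g (p v) := by
    intro g v
    obtain ⟨a, ha, b, hb, rfl⟩ := Submodule.mem_sup.mp (show v ∈ W ⊔ W' by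
      rw [hc.sup_eq_top]; trivial)
    rw [map_add, map_add, map_add, map_add, hpW a ha, hpW' b hb, hr g a, hr g b,
      hpW _ (hW g a ha), hpW' _ (hW' g b hb), map_zero]
  let P : Representation.IntertwiningMap r r :=
    LinearMap.intertwiningMap_of_isIntertwiningMap r r p hpc
  have hlin : LinearIndependent E ![Representation.IntertwiningMap.id r, P] := by
    rw [LinearIndependent.pair_iff]
    intro s t hst
    have h2 : ∀ v, s • v + t • p v = 0 := by
      intro v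
      have h3 := DFunLike.congr_fun hst v
      have hP : ∀ v, P v = p v := fun v => rfl
      simpa [hP] using h3
    obtain ⟨b, hb, hb0⟩ : ∃ b ∈ W', b ≠ 0 := by
      by_contra hcon
      push Not at hcon
      apply h1
      have : W' = ⊥ := by
        rw [Submodule.eq_bot_iff]; exact hcon
      rw [this] at hc
      exact hc.sup_eq_top.symm ▸ (by simp)
    obtain ⟨a, ha, ha0⟩ := W.ne_bot_iff.mp h0
    have hs : s = 0 := by
      have := h2 b
      rw [hpW' b hb, smul_zero, add_zero] at this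
      exact (smul_eq_zero.mp this).resolve_right hb0
    refine ⟨hs, ?_⟩
    have := h2 a
    rw [hpW a ha, hs, zero_smul, zero_add] at this
    exact (smul_eq_zero.mp this).resolve_right ha0
  have hfr : 2 ≤ finrank E (Representation.IntertwiningMap r r) := by
    have := hlin.fintype_card_le_finrank
    simpa using this
  have hcard : (Nat.card Q : E) ≠ 0 := by
    have : Nat.card Q ≠ 0 := Nat.card_pos.ne'
    exact_mod_cast this
  let _ : Invertible (Nat.card Q : E) := invertibleOfNonzero hcard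
  have hmain := Representation.card_inv_mul_sum_char_mul_char_eq_finrank r r
  refine ⟨_, hfr, ?_⟩
  rw [← hmain, ← Nat.card_eq_fintype_card, ← mul_assoc, mul_inv_cancel₀ hcard, one_mul]
  exact Finset.sum_congr rfl fun q _ => by rw [hchar, hchar]

section
variable {K : Type} [Field K] [NumberField K]

/-- **Deligne-Serre criterion for `GL_n`**, over a number field. -/
theorem deligne_serre_nf (hC : ChebK) (hF : TaskFrob) (hP : ProdNF) (F : Type) [Field F]
    [NumberField F] {n : ℕ} (hn : 0 < n) {S : Set (HeightOneSpectrum (𝓞 K))} (hS : S.Finite)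
    (A : HeightOneSpectrum (𝓞 K) → (𝓞 F)[X]) (hT : Tight S (tc n A))
    (Λ : Type) [Infinite Λ] (k : Λ → Type) [∀ l, Field (k l)] (r : ∀ l, 𝓞 F →+* k l)
    (hr : ∀ a : 𝓞 F, a ≠ 0 → {l : Λ | r l a = 0}.Finite)
    (ρ : ∀ l, GK K →* GL (Fin n) (k l)) (hopen : ∀ l, IsOpen ((ρ l).ker : Set (GK K)))
    (hsem : ∀ l, Semis (ρ l)) (hatt : ∀ l, Attached S A (r l) (ρ l)) :
    ∃ (E : Type) (_ : Field E) (_ : NumberField E) (_ : Algebra F E) (ρ' : GK K →* GL (Fin n) E),
      IsOpen (ρ'.ker : Set (GK K)) ∧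
      Attached S A ((algebraMap F E).comp (algebraMap (𝓞 F) F)) ρ' := by
  classical
  -- characteristic conditions
  have hnat : ∀ m : ℕ, m ≠ 0 → {l : Λ | ((m : ℕ) : k l) = 0}.Finite := by
    intro m hm
    refine (hr (m : 𝓞 F) (by exact_mod_cast hm)).subset fun l hl => ?_
    simpa using hl
  set Λ₀ : Set Λ := {l | ((n.factorial : ℕ) : k l) ≠ 0} with hΛ₀
  have hΛ₀c : (Λ₀ᶜ).Finite := (hnat _ n.factorial_ne_zero).subset fun l hl => by
    simpa [hΛ₀] using hl
  have hc : ∀ l ∈ Λ₀, ∀ m : ℕ, 0 < m → m ≤ n → (m : k l) ≠ 0 := by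
    intro l hl m hm hmn h0
    apply hl
    obtain ⟨c, hc⟩ := Nat.dvd_factorial hm hmn
    rw [hc, Nat.cast_mul, h0, zero_mul]
  -- the bound
  obtain ⟨Y₀, hY₀, hY₀d⟩ := hT (1 / (2 * (n : ℝ) ^ 2)) (by positivity)
  set B : ℝ := 2 * (Y₀.ncard + 1 : ℝ) ^ (n ^ 2) with hBdef
  have hB0 : 0 < B := by positivity
  have hB : ∀ l ∈ Λ₀, (Nat.card (GK K ⧸ (ρ l).ker) : ℝ) ≤ B := fun l hl =>
    bound hn hS (hopen l) (hsem l) (hatt l) hC (hc l hl) hY₀ hY₀d
  obtain ⟨Y, hY, hYd⟩ := hT (1 / (2 * B)) (by positivity)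
  have htr : ∀ l ∈ Λ₀, ∀ g : GK K, ∃ y ∈ Y, (ρ l g : Matrix (Fin n) (Fin n) (k l)).trace = r l y :=
    fun l hl g => trace_mem hn hS (hopen l) (hatt l) hC hB0 (hB l hl) hYd g
  -- infinitely many indices outside a finite set
  have hinf : ∀ T : Set Λ, T.Finite → (Λ₀ \ T).Infinite := by
    intro T hT'
    have h1 : (Λ₀ᶜ ∪ T).Finite := hΛ₀c.union hT'
    have h2 : (Λ₀ \ T) = (Λ₀ᶜ ∪ T)ᶜ := by
      ext l; simp
    rw [h2]
    exact h1.infinite_compl
  have hNv : ∀ v : HeightOneSpectrum (𝓞 K), {l : Λ | ((Ideal.absNorm v.asIdeal : ℕ) : k l) = 0}.Finite := by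
    intro v
    refine hnat _ ?_
    rw [Ne, Ideal.absNorm_eq_zero_iff]
    exact v.ne_bot
  -- the coefficients lie in `Y`
  have haY : ∀ v, v ∉ S → tc n A v ∈ Y := by
    intro v hv
    by_contra hvY
    obtain ⟨σ, hσ⟩ := (hF K).1 v
    have hfin : (⋃ y ∈ Y, {l : Λ | r l (tc n A v - y) = 0}).Finite := by
      refine hY.biUnion fun y hy => hr _ ?_
      intro h0
      exact hvY ((sub_eq_zero.mp h0) ▸ hy)
    obtain ⟨l, hl, hl2⟩ := (hinf _ ((hNv v).union hfin)).nonempty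
    simp only [Set.mem_union, not_or] at hl2
    obtain ⟨y, hy, hy2⟩ := htr l hl σ
    rw [trace_frob hn (hatt l) hv hl2.1 hσ] at hy2
    apply hl2.2
    simp only [Set.mem_iUnion]
    exact ⟨y, hy, by rw [Set.mem_ofPred_eq, map_sub, hy2, sub_self]⟩
  -- indices for which the reduction is injective on `Y`
  set Λ₁ : Set Λ := {l | l ∈ Λ₀ ∧ ∀ y ∈ Y, ∀ y' ∈ Y, r l y = r l y' → y = y'} with hΛ₁
  have hbad : (⋃ y ∈ Y, ⋃ y' ∈ Y, {l : Λ | r l y = r l y' ∧ y ≠ y'}).Finite := by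
    refine hY.biUnion fun y _ => hY.biUnion fun y' _ => ?_
    by_cases hyy : y = y'
    · subst hyy
      simp
    · refine (hr (y - y') (sub_ne_zero.mpr hyy)).subset fun l hl => ?_
      rw [Set.mem_ofPred_eq, map_sub, hl.1, sub_self]
  have hΛ₁inf : ∀ T : Set Λ, T.Finite → (Λ₁ \ T).Infinite := by
    intro T hT'
    refine (hinf _ (hbad.union hT')).mono fun l hl => ?_
    simp only [Set.mem_sdiff, Set.mem_union, not_or] at hl
    refine ⟨⟨hl.1, fun y hy y' hy' hyy => ?_⟩, hl.2.2⟩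
    by_contra hne
    apply hl.2.1
    simp only [Set.mem_iUnion]
    exact ⟨y, hy, y', hy', hyy, hne⟩
  -- independence of the index
  have hind : ∀ l ∈ Λ₁, ∀ l' ∈ Λ₁, ∀ g : GK K, ∀ y ∈ Y, ∀ y' ∈ Y,
      (ρ l g : Matrix (Fin n) (Fin n) (k l)).trace = r l y →
      (ρ l' g : Matrix (Fin n) (Fin n) (k l')).trace = r l' y' → y = y' := by
    intro l hl l' hl' g y hy y' hy' h1 h2
    have hopen2 : IsOpen (((ρ l).prod (ρ l')).ker : Set (GK K)) := by
      have : (((ρ l).prod (ρ l')).ker : Set (GK K)) = ((ρ l).ker : Set (GK K)) ∩ (ρ l').ker := by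
        ext x
        simp [MonoidHom.mem_ker, Prod.ext_iff]
      rw [this]
      exact (hopen l).inter (hopen l')
    obtain ⟨c, hc1, hc2⟩ := dens_conj hC ((ρ l).prod (ρ l')) hopen2 g
    have hfi : Finite (GK K ⧸ ((ρ l).prod (ρ l')).ker) := Subgroup.quotient_finite_of_isOpen _ hopen2
    have hcpos : 0 < c := by
      refine lt_of_lt_of_le ?_ hc2
      have : (0 : ℝ) < Nat.card (GK K ⧸ ((ρ l).prod (ρ l')).ker) := by exact_mod_cast Nat.card_pos
      positivity
    obtain ⟨v, ⟨σ, ⟨τ, hτ⟩, hσ⟩, h3⟩ := exists_prime' hc1 hcpos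
      ((hS.union (finite_char (K := K) (k := k l))).union (finite_char (K := K) (k := k l')))
    simp only [Set.mem_union, not_or] at h3
    have hτ1 : ρ l σ = ρ l (τ * g * τ⁻¹) := congrArg Prod.fst hτ
    have hτ2 : ρ l' σ = ρ l' (τ * g * τ⁻¹) := congrArg Prod.snd hτ
    have hav := haY v h3.1.1
    have e1 : r l y = r l (tc n A v) := by
      rw [← h1, ← trace_frob hn (hatt l) h3.1.1 h3.1.2 hσ, hτ1, map_mul, map_mul, Units.val_mul,
        Units.val_mul, Matrix.trace_mul_comm (ρ l τ * ρ l g : Matrix (Fin n) (Fin n) (k l)), ← mul_assoc,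
        ← Units.val_mul (ρ l τ⁻¹), ← map_mul, inv_mul_cancel, map_one, Units.val_one, one_mul]
    have e2 : r l' y' = r l' (tc n A v) := by
      rw [← h2, ← trace_frob hn (hatt l') h3.1.1 h3.2 hσ, hτ2, map_mul, map_mul, Units.val_mul,
        Units.val_mul, Matrix.trace_mul_comm (ρ l' τ * ρ l' g : Matrix (Fin n) (Fin n) (k l')), ← mul_assoc,
        ← Units.val_mul (ρ l' τ⁻¹), ← map_mul, inv_mul_cancel, map_one, Units.val_one, one_mul]
    rw [hl.2 y hy _ hav e1, hl'.2 y' hy' _ hav e2]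
  -- the kernels agree
  have hker : ∀ l ∈ Λ₁, ∀ l' ∈ Λ₁, (ρ l).ker ≤ (ρ l').ker := by
    intro l hl l' hl' g hg
    rw [MonoidHom.mem_ker] at hg ⊢
    obtain ⟨d, s, -, hs⟩ := exists_sep (hsem l') (hc l' hl'.1)
    rw [hs g 1 fun i => ?_, map_one]
    obtain ⟨y1, hy1, e1⟩ := htr l' hl'.1 (s i * g)
    obtain ⟨y2, hy2, e2⟩ := htr l' hl'.1 (s i * 1)
    obtain ⟨y3, hy3, e3⟩ := htr l hl.1 (s i * g)
    have e4 : (ρ l (s i * 1) : Matrix (Fin n) (Fin n) (k l)).trace = r l y3 := by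
      rw [← e3, map_mul, map_mul, hg, map_one]
    rw [e1, e2, ← hind l hl l' hl' _ y3 hy3 y1 hy1 e3 e1, ← hind l hl l' hl' _ y3 hy3 y2 hy2 e4 e2]
  -- glue
  obtain ⟨l₀, hl₀⟩ := (hΛ₁inf ∅ Set.finite_empty).nonempty
  rw [Set.sdiff_empty] at hl₀
  set U := (ρ l₀).ker with hU
  have hUopen : IsOpen (U : Set (GK K)) := hopen l₀
  have hfi : Finite (GK K ⧸ U) := Subgroup.quotient_finite_of_isOpen U hUopen
  have hΛ₁I : Infinite Λ₁ := by
    have := hΛ₁inf ∅ Set.finite_empty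
    rw [Set.sdiff_empty] at this
    exact this.to_subtype
  have hr' : ∀ a : 𝓞 F, a ≠ 0 → {l : Λ₁ | r (l : Λ) a = 0}.Finite := by
    intro a ha
    exact (hr a ha).preimage (f := fun l : Λ₁ => (l : Λ)) (fun _ _ _ _ h => Subtype.ext h)
  obtain ⟨E, hE1, hE2, hE3, ρ'', hρ''⟩ := hP F Λ₁ (fun l => k l) (fun l => r l) hr' (GK K ⧸ U) n
    (fun l => QuotientGroup.lift U (ρ l) fun x hx => (hker l₀ hl₀ l l.2 hx : x ∈ (ρ l).ker))
  refine ⟨E, hE1, hE2, hE3, ρ''.comp (QuotientGroup.mk' U), ?_, ?_⟩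
  · refine Subgroup.isOpen_mono (H₁ := U) (fun x hx => ?_) hUopen
    rw [MonoidHom.mem_ker, MonoidHom.comp_apply]
    have : (QuotientGroup.mk' U) x = 1 := (QuotientGroup.eq_one_iff x).mpr hx
    rw [this, map_one]
  · refine ⟨fun v hv _ σ hσ => ?_, fun v hv _ σ hσ => ?_⟩
    · obtain ⟨l, hl, hl2⟩ := (hΛ₁inf _ (hNv v)).nonempty
      have h1 : ρ l σ = 1 := (hatt l).unram v hv hl2 σ hσ
      have h2 : σ ∈ U := hker l hl l₀ hl₀ (MonoidHom.mem_ker.mpr h1)
      rw [MonoidHom.comp_apply]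
      have : (QuotientGroup.mk' U) σ = 1 := (QuotientGroup.eq_one_iff σ).mpr h2
      rw [this, map_one]
    · rw [MonoidHom.comp_apply]
      refine hρ'' _ (A v) ?_
      refine ((hNv v).preimage (f := fun l : Λ₁ => (l : Λ))
        (fun _ _ _ _ h => Subtype.ext h)).subset fun l hl => ?_
      by_contra h0
      exact hl ((hatt l).frob v hv h0 σ hσ)

end

end Pool.Agent.W401.Gal
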