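import Pool.Agent.W401.Gal.Motive

/-!
# Artin motives attached to coefficients of bounded mean square
-/

set_option autoImplicit false

namespace Pool.Agent.W401.Gal

open NumberField IsDedekindDomain Polynomial Pool.Agent.W401.Cheb Filter Topology Module

section
variable {K : Type} [Field K] [NumberField K]

/-- the number field version of the main theorem -/
theorem main_nf (hC : ChebK) (hF : TaskFrob) (hP : ProdNF) (F : Type) [Field F] [NumberField F]
    {n : ℕ} (hn : 0 < n) {S : Set (HeightOneSpectrum (𝓞 K))} (hS : S.Finite)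
    (A : HeightOneSpectrum (𝓞 K) → (𝓞 F)[X]) (C : ℝ)
    (hRS : ∀ s : F →+* ℂ, ∀ᶠ N : ℕ in atTop,
      sumsq S (fun v => s ((tc n A v : 𝓞 F) : F)) N ≤ C * Nat.primeCounting N)
    (Λ : Type) [Infinite Λ] (k : Λ → Type) [∀ l, Field (k l)] [∀ l, TopologicalSpace (k l)]
    [∀ l, IsTopologicalRing (k l)] [∀ l, T2Space (k l)] (r : ∀ l, 𝓞 F →+* k l)
    (hr : ∀ a : 𝓞 F, a ≠ 0 → {l : Λ | r l a = 0}.Finite)
    (ρ : ∀ l, GK K →* GL (Fin n) (k l)) (hcont : ∀ l, Continuous (ρ l))
    (hsem : ∀ l, Semis (ρ l)) (hatt : ∀ l, Attached S A (r l) (ρ l)) :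
    ∃ (E : Type) (_ : Field E) (_ : NumberField E) (_ : Algebra F E) (ρ' : GK K →* GL (Fin n) E),
      IsOpen (ρ'.ker : Set (GK K)) ∧
      Attached S A ((algebraMap F E).comp (algebraMap (𝓞 F) F)) ρ' := by
  classical
  have hT : Tight S (tc n A) := tight_of_meansq C hRS
  -- good indices
  set Λ₁ : Set Λ := {l | ((n.factorial : ℕ) : k l) ≠ 0} with hΛ₁
  have hΛ₁c : (Λ₁ᶜ).Finite := by
    refine (hr (n.factorial : 𝓞 F) (by exact_mod_cast n.factorial_ne_zero)).subset fun l hl => ?_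
    have hl' : ((n.factorial : ℕ) : k l) = 0 := by
      by_contra h
      exact hl h
    simp only [Set.mem_ofPred_eq, map_natCast]
    exact hl'
  have hinf : Infinite Λ₁ := by
    have : (Λ₁).Infinite := by
      have := hΛ₁c.infinite_compl
      rwa [compl_compl] at this
    exact this.to_subtype
  have hopen : ∀ l : Λ₁, IsOpen ((ρ l).ker : Set (GK K)) := by
    intro l
    have hc : ∀ m : ℕ, 0 < m → m ≤ n → (m : k l) ≠ 0 := by
      intro m hm hmn h0
      apply l.2
      obtain ⟨c, hc⟩ := Nat.dvd_factorial hm hmn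
      rw [hc, Nat.cast_mul, h0, zero_mul]
    have hR := finite_of_tight hC hF hn hc hS (hcont l) (hsem l) (hatt l) hT
    have hfi : Finite (GK K ⧸ (ρ l).ker) := by
      have : Finite (ρ l).range := hR.to_subtype
      exact Finite.of_equiv _ (QuotientGroup.quotientKerEquivRange (ρ l)).symm.toEquiv
    have hcl : IsClosed ((ρ l).ker : Set (GK K)) := by
      have : ((ρ l).ker : Set (GK K)) = (ρ l) ⁻¹' {1} := by
        ext g; simp [MonoidHom.mem_ker]
      rw [this]
      exact isClosed_singleton.preimage (hcont l)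
    have hfidx : (ρ l).ker.FiniteIndex := Subgroup.finiteIndex_of_finite_quotient
    exact Subgroup.isOpen_of_isClosed_of_finiteIndex _ hcl
  exact deligne_serre_nf hC hF hP F hn hS A hT Λ₁ (fun l => k l) (fun l => r l)
    (fun a ha => by
      have := hr a ha
      exact this.preimage (f := fun l : Λ₁ => (l : Λ)) Subtype.val_injective.injOn)
    (fun l => ρ l) hopen (fun l => hsem l) (fun l => hatt l)

/-- absolute irreducibility -/
theorem abs_irr (hC : ChebK) (hF : TaskFrob) {F : Type} [Field F] [NumberField F]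
    {n : ℕ} (hn : 0 < n) {S : Set (HeightOneSpectrum (𝓞 K))} (hS : S.Finite)
    (A : HeightOneSpectrum (𝓞 K) → (𝓞 F)[X]) (ι : F →+* ℂ) {c : ℝ} (hc : c < 2)
    (hc2 : ∃ᶠ N : ℕ in atTop,
      sumsq S (fun v => ι ((tc n A v : 𝓞 F) : F)) N ≤ c * Nat.primeCounting N)
    {E : Type} [Field E] [NumberField E] [Algebra F E] (ρ : GK K →* GL (Fin n) E)
    (hop : IsOpen (ρ.ker : Set (GK K)))
    (hatt : Attached S A ((algebraMap F E).comp (algebraMap (𝓞 F) F)) ρ)
    {E' : Type} [Field E'] (j : E →+* E') (W : Submodule E' (Fin n → E'))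
    (hW : ∀ g : GK K, ∀ w ∈ W,
      ((ρ g : Matrix (Fin n) (Fin n) E).map j).mulVec w ∈ W) : W = ⊥ ∨ W = ⊤ := by
  classical
  by_contra hcon
  push Not at hcon
  obtain ⟨h0, h1⟩ := hcon
  have hchar : CharZero E' := charZero_of_injective_ringHom j.injective
  have hfi : Finite (GK K ⧸ ρ.ker) := Subgroup.quotient_finite_of_isOpen _ hop
  have : Fintype (GK K ⧸ ρ.ker) := Fintype.ofFinite _
  set rb : GK K ⧸ ρ.ker →* GL (Fin n) E := QuotientGroup.kerLift ρ with hrb
  have hrbv : ∀ g : GK K, rb (g : GK K ⧸ ρ.ker) = ρ g := fun g => rfl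
  set rb' : GK K ⧸ ρ.ker →* GL (Fin n) E' := (Matrix.GeneralLinearGroup.map j).comp rb with hrb'
  have hrb'v : ∀ q, (rb' q : Matrix (Fin n) (Fin n) E') = (rb q : Matrix (Fin n) (Fin n) E).map j :=
    fun q => rfl
  have hWq : ∀ q, ∀ w ∈ W, (rb' q : Matrix (Fin n) (Fin n) E').mulVec w ∈ W := by
    intro q w hw
    obtain ⟨g, rfl⟩ := QuotientGroup.mk_surjective q
    exact hW g w hw
  have hfi2 : Finite ((GK K ⧸ ρ.ker) ⧸ rb'.ker) := inferInstance
  obtain ⟨W', hW', hcompl⟩ := semis_of_finite rb' hfi2 W hWq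
  obtain ⟨m, hm, hsum⟩ := char_norm rb' hWq hW' hcompl h0 h1
  have htr : ∀ q, (rb' q : Matrix (Fin n) (Fin n) E').trace =
      j (rb q : Matrix (Fin n) (Fin n) E).trace := by
    intro q
    rw [hrb'v]
    simp [Matrix.trace, Matrix.diag, Matrix.map_apply, map_sum]
  have hsumE : ∑ q, (rb q : Matrix (Fin n) (Fin n) E).trace *
      (rb q⁻¹ : Matrix (Fin n) (Fin n) E).trace = (Fintype.card (GK K ⧸ ρ.ker) : E) * (m : E) := by
    apply j.injective
    rw [map_sum, map_mul, map_natCast, map_natCast, ← hsum]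
    exact Finset.sum_congr rfl fun q _ => by rw [map_mul, htr, htr]
  -- an embedding in `ℂ`
  let _ : Algebra F ℂ := ι.toAlgebra
  have halg : Algebra.IsAlgebraic F E := by
    have : FiniteDimensional F E := Module.Finite.of_restrictScalars_finite ℚ F E
    exact Algebra.IsAlgebraic.of_finite F E
  let e : E →ₐ[F] ℂ := IsAlgClosed.lift
  have he : ∀ x : F, e (algebraMap F E x) = ι x := fun x => e.commutes x
  have hnorm : 2 * (Fintype.card (GK K ⧸ ρ.ker) : ℝ) ≤
      ∑ q, ‖e (rb q : Matrix (Fin n) (Fin n) E).trace‖ ^ 2 := by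
    have h2 : ∑ q, e (rb q : Matrix (Fin n) (Fin n) E).trace *
        e (rb q⁻¹ : Matrix (Fin n) (Fin n) E).trace =
        (Fintype.card (GK K ⧸ ρ.ker) : ℂ) * (m : ℂ) := by
      have h3 := congrArg e hsumE
      rw [map_sum, map_mul, map_natCast, map_natCast] at h3
      rw [← h3]
      exact Finset.sum_congr rfl fun q _ => (map_mul e _ _).symm
    have h5 : ‖∑ q, e (rb q : Matrix (Fin n) (Fin n) E).trace *
        e (rb q⁻¹ : Matrix (Fin n) (Fin n) E).trace‖ =
        (Fintype.card (GK K ⧸ ρ.ker) : ℝ) * (m : ℝ) := by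
      rw [h2, norm_mul, Complex.norm_natCast, Complex.norm_natCast]
    have h6 : ∑ q, ‖e (rb q⁻¹ : Matrix (Fin n) (Fin n) E).trace‖ ^ 2 =
        ∑ q, ‖e (rb q : Matrix (Fin n) (Fin n) E).trace‖ ^ 2 :=
      Equiv.sum_comp (Equiv.inv (GK K ⧸ ρ.ker)) fun q =>
        ‖e (rb q : Matrix (Fin n) (Fin n) E).trace‖ ^ 2
    have h7 : ∀ q, ‖e (rb q : Matrix (Fin n) (Fin n) E).trace *
        e (rb q⁻¹ : Matrix (Fin n) (Fin n) E).trace‖ ≤
        (‖e (rb q : Matrix (Fin n) (Fin n) E).trace‖ ^ 2 +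
          ‖e (rb q⁻¹ : Matrix (Fin n) (Fin n) E).trace‖ ^ 2) / 2 := by
      intro q
      rw [norm_mul]
      nlinarith [sq_nonneg (‖e (rb q : Matrix (Fin n) (Fin n) E).trace‖ -
        ‖e (rb q⁻¹ : Matrix (Fin n) (Fin n) E).trace‖)]
    have h8 : (Fintype.card (GK K ⧸ ρ.ker) : ℝ) * (m : ℝ) ≤
        ∑ q, ‖e (rb q : Matrix (Fin n) (Fin n) E).trace‖ ^ 2 := by
      rw [← h5]
      refine (norm_sum_le _ _).trans ((Finset.sum_le_sum fun q _ => h7 q).trans ?_)
      rw [← Finset.sum_div, Finset.sum_add_distrib, h6]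
      linarith
    refine le_trans ?_ h8
    rw [mul_comm]
    have : (2 : ℝ) ≤ m := by exact_mod_cast hm
    gcongr
  obtain ⟨c', hcc', hc'⟩ := exists_between hc
  have hQ : (0 : ℝ) < Fintype.card (GK K ⧸ ρ.ker) := by exact_mod_cast Fintype.card_pos
  have hmean := mean_lower hC hF ρ.ker hop
    (fun q => ‖e (rb q : Matrix (Fin n) (Fin n) E).trace‖ ^ 2) (fun q => by positivity)
    (by
      intro σ τ
      rw [hrbv, hrbv, map_mul, map_mul, Units.val_mul, Units.val_mul, Matrix.trace_mul_comm,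
        ← mul_assoc, ← Units.val_mul, ← map_mul, inv_mul_cancel, map_one, Units.val_one, one_mul])
    hS (fun v => ι ((tc n A v : 𝓞 F) : F))
    (by
      intro v hv σ hσ
      have hv2 : ((Ideal.absNorm v.asIdeal : ℕ) : E) ≠ 0 := by
        rw [Nat.cast_ne_zero]
        intro h3
        rw [Ideal.absNorm_eq_zero_iff] at h3
        exact v.ne_bot h3
      rw [hrbv, trace_frob hn hatt hv hv2 hσ, RingHom.comp_apply, he])
    (c := c') (by
      rw [lt_div_iff₀ hQ]
      nlinarith)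
  obtain ⟨N, hN1, hN2⟩ := (hc2.and_eventually hmean).exists
  have hpi : (0 : ℝ) ≤ Nat.primeCounting N := Nat.cast_nonneg _
  nlinarith

end

end Pool.Agent.W401.Gal
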