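import Pool.Agent.W401.Gal.Prod

/-! Representations over the residue fields at infinitely many primes glue to a representation over a
number field. -/

set_option autoImplicit false

namespace Pool.Agent.W401.Gal

open NumberField IsDedekindDomain Polynomial

/-- gluing over a number field -/
def ProdNF : Prop := ∀ (F : Type) [Field F] [NumberField F] (Λ : Type) [Infinite Λ]
  (k : Λ → Type) [∀ l, Field (k l)] (r : ∀ l, 𝓞 F →+* k l),
  (∀ a : 𝓞 F, a ≠ 0 → {l : Λ | r l a = 0}.Finite) →
  ∀ (Q : Type) [Group Q] [Finite Q] (n : ℕ) (ρ : ∀ l : Λ, Q →* GL (Fin n) (k l)),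
  ∃ (E : Type) (_ : Field E) (_ : NumberField E) (_ : Algebra F E) (ρ' : Q →* GL (Fin n) E),
    ∀ (q : Q) (A : (𝓞 F)[X]),
    {l : Λ | (ρ l q : Matrix (Fin n) (Fin n) (k l)).charpoly ≠ A.map (r l)}.Finite →
    (ρ' q : Matrix (Fin n) (Fin n) E).charpoly = A.map ((algebraMap F E).comp (algebraMap (𝓞 F) F))

end Pool.Agent.W401.Gal

namespace Pool.Agent.W401.Gal.Prod

open NumberField IsDedekindDomain Polynomial

theorem mainNF : Pool.Agent.W401.Gal.ProdNF := by
  intro F _ _ Λ _ k _ r hr Q _ _ n ρ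
  classical
  have hnt := nontriv k
  -- the field acts
  have hun : ∀ y : nonZeroDivisors (𝓞 F), IsUnit (th k r y) := fun y =>
    th_unit k r y (hr _ (nonZeroDivisors.coe_ne_zero y))
  let θ : F →+* SR k := IsLocalization.lift hun
  have hθ : θ.comp (algebraMap (𝓞 F) F) = th k r := IsLocalization.lift_comp hun
  letI : Algebra F (SR k) := θ.toAlgebra
  let π : PR k →+* SR k := Ideal.Quotient.mk (I0 k)
  let B : Subalgebra F (SR k) := Algebra.adjoin F
    (Set.range fun p : Q × Fin n × Fin n => π (rS ρ p.1 p.2.1 p.2.2))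
  have hmem : ∀ q i j, π (rS ρ q i j) ∈ B := fun q i j =>
    Algebra.subset_adjoin ⟨(q, i, j), rfl⟩
  have hft : Algebra.FiniteType F B := by
    rw [← Subalgebra.fg_iff_finiteType]
    exact ⟨(Set.finite_range
      (fun p : Q × Fin n × Fin n => π (rS ρ p.1 p.2.1 p.2.2))).toFinset, by simp [B]⟩
  let ρB : Q →* Matrix (Fin n) (Fin n) B :=
    { toFun := fun q => Matrix.of fun i j => ⟨π (rS ρ q i j), hmem q i j⟩
      map_one' := by
        ext i j
        by_cases h : i = j
        · subst h; simp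
        · simp [Matrix.one_apply_ne h]
      map_mul' := by
        intro p q
        ext i j
        simp only [map_mul, Matrix.of_apply, Matrix.mul_apply, map_sum]
        push_cast
        rfl }
  have hBnt : Nontrivial B := inferInstance
  obtain ⟨m, hm⟩ := Ideal.exists_maximal B
  letI : Field (B ⧸ m) := Ideal.Quotient.field m
  have hfq : Algebra.FiniteType F (B ⧸ m) :=
    Algebra.FiniteType.of_surjective (Ideal.Quotient.mkₐ F m) Ideal.Quotient.mk_surjective
  have hfin : Module.Finite F (B ⧸ m) := finite_of_finite_type_of_isJacobsonRing F (B ⧸ m)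
  have hchar : CharZero (B ⧸ m) := charZero_of_injective_algebraMap (algebraMap F (B ⧸ m)).injective
  have hnf : NumberField (B ⧸ m) := by
    have : FiniteDimensional ℚ (B ⧸ m) := Module.Finite.trans F (B ⧸ m)
    exact ⟨⟩
  let h : B →ₐ[F] (B ⧸ m) := Ideal.Quotient.mkₐ F m
  let ρM : Q →* Matrix (Fin n) (Fin n) (B ⧸ m) :=
    (h.mapMatrix : Matrix (Fin n) (Fin n) B →ₐ[F] Matrix (Fin n) (Fin n) (B ⧸ m)).toRingHom.toMonoidHom.comp
      ρB
  refine ⟨B ⧸ m, inferInstance, hnf, inferInstance, MonoidHom.toHomUnits ρM, ?_⟩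
  intro q A hA
  have h1 := charpoly_rS r ρ q A hA
  have h2 : (ρB q).charpoly = (A.map (algebraMap (𝓞 F) F)).map (algebraMap F B) := by
    have hinj : Function.Injective (Polynomial.map (B.val : B →+* SR k)) :=
      Polynomial.map_injective _ Subtype.val_injective
    apply hinj
    have h3 : ((ρB q).charpoly).map (B.val : B →+* SR k) =
        ((rS ρ q).map (Ideal.Quotient.mk (I0 k))).charpoly := by
      rw [← Matrix.charpoly_map]
      rfl
    rw [h3, h1, Polynomial.map_map, Polynomial.map_map, ← hθ]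
    rfl
  have h4 : ((MonoidHom.toHomUnits ρM q : GL (Fin n) (B ⧸ m)) : Matrix (Fin n) (Fin n) (B ⧸ m)) =
      (ρB q).map (h : B →+* (B ⧸ m)) := rfl
  rw [h4, Matrix.charpoly_map, h2, Polynomial.map_map, Polynomial.map_map]
  congr 1

end Pool.Agent.W401.Gal.Prod
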