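import Pool.Agent.W401.Gal.Trace

/-!
# Semisimple representations of profinite groups whose traces lie in a finite set on a large set
-/

set_option autoImplicit false

namespace Pool.Agent.W401.Gal

open Module MeasureTheory Topology

section
variable {k : Type*} [Field k] {n : ℕ} {G : Type*} [Group G]

/-- finitely many traces determine the image -/
theorem exists_sep {ρ : G →* GL (Fin n) k} (hρ : Semis ρ)
    (hc : ∀ m : ℕ, 0 < m → m ≤ n → (m : k) ≠ 0) :
    ∃ (d : ℕ) (s : Fin d → G), d ≤ n ^ 2 ∧ ∀ g h : G,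
      (∀ i, (ρ (s i * g) : Matrix (Fin n) (Fin n) k).trace =
        (ρ (s i * h) : Matrix (Fin n) (Fin n) k).trace) → ρ g = ρ h := by
  classical
  obtain ⟨f, hf1, hf2, -⟩ := Submodule.exists_fun_fin_finrank_span_eq k
    (Set.range fun g => (ρ g : Matrix (Fin n) (Fin n) k))
  choose s hs using hf1
  refine ⟨_, s, ?_, ?_⟩
  · refine (Submodule.finrank_le _).trans ?_
    rw [Module.finrank_matrix]
    simp [sq]
  · intro g h hgh
    have h1 : ∀ b ∈ Sp ρ, (b * ((ρ g : Matrix (Fin n) (Fin n) k) - ρ h)).trace = 0 := by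
      intro b hb
      unfold Sp at hb
      rw [← hf2] at hb
      induction hb using Submodule.span_induction with
      | mem x hx =>
        obtain ⟨i, rfl⟩ := hx
        rw [← hs i, mul_sub, Matrix.trace_sub]
        have := hgh i
        simp only [map_mul, Units.val_mul] at this
        rw [this, sub_self]
      | zero => rw [zero_mul, Matrix.trace_zero]
      | add x y _ _ hx hy => rw [add_mul, Matrix.trace_add, hx, hy, add_zero]
      | smul c x _ hx => rw [smul_mul_assoc, Matrix.trace_smul, hx, smul_zero]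
    have h2 : (ρ g : Matrix (Fin n) (Fin n) k) - ρ h = 0 := by
      refine nondeg hρ hc (Submodule.sub_mem _ (Submodule.subset_span ⟨g, rfl⟩)
        (Submodule.subset_span ⟨h, rfl⟩)) fun x => ?_
      rw [Matrix.trace_mul_comm]
      exact h1 _ (Submodule.subset_span ⟨x, rfl⟩)
    exact Units.ext (sub_eq_zero.mp h2)

/-- the image of the set where finitely many translated traces lie in a finite set is finite -/
theorem finite_image {ρ : G →* GL (Fin n) k} {d : ℕ} {s : Fin d → G}
    (hs : ∀ g h : G, (∀ i, (ρ (s i * g) : Matrix (Fin n) (Fin n) k).trace =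
        (ρ (s i * h) : Matrix (Fin n) (Fin n) k).trace) → ρ g = ρ h) {Y : Set k} (hY : Y.Finite) :
    (ρ '' {g | ∀ i, (ρ (s i * g) : Matrix (Fin n) (Fin n) k).trace ∈ Y}).Finite := by
  have hfin : (Set.pi Set.univ fun _ : Fin d => Y).Finite := Set.Finite.pi fun _ => hY
  let F : G → (Fin d → k) := fun g i => (ρ (s i * g) : Matrix (Fin n) (Fin n) k).trace
  have h1 : (F '' {g | ∀ i, (ρ (s i * g) : Matrix (Fin n) (Fin n) k).trace ∈ Y}).Finite := by
    refine hfin.subset ?_
    rintro _ ⟨g, hg, rfl⟩ i _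
    exact hg i
  classical
  let r : (Fin d → k) → GL (Fin n) k := fun y => if h : ∃ g, F g = y then ρ h.choose else 1
  refine (h1.image r).subset ?_
  rintro _ ⟨g, hg, rfl⟩
  refine ⟨F g, ⟨g, hg, rfl⟩, ?_⟩
  have h2 : ∃ g', F g' = F g := ⟨g, rfl⟩
  simp only [r, dif_pos h2]
  exact hs _ _ fun i => congrFun h2.choose_spec i

end

section haar
variable {G : Type*} [Group G] [TopologicalSpace G] [IsTopologicalGroup G] [CompactSpace G]
  [MeasurableSpace G] [BorelSpace G]

/-- normalised Haar measure -/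
noncomputable def hm (G : Type*) [Group G] [TopologicalSpace G] [IsTopologicalGroup G] [CompactSpace G]
    [MeasurableSpace G] [BorelSpace G] : Measure G :=
  Measure.haarMeasure (⊤ : TopologicalSpace.PositiveCompacts G)

instance : (hm G).IsHaarMeasure := by unfold hm; infer_instance

instance : (hm G).Regular := by unfold hm; infer_instance

lemma hm_univ : hm G Set.univ = 1 := by
  unfold hm
  have := Measure.haarMeasure_self (K₀ := (⊤ : TopologicalSpace.PositiveCompacts G))
  simpa using this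

instance : IsProbabilityMeasure (hm G) := ⟨hm_univ⟩

/-- a homomorphism with closed kernel which is finite on a set of positive measure has finite image -/
theorem finite_range {A : Type*} [Group A] (f : G →* A) (hf : IsClosed (f.ker : Set G))
    {X : Set G} (hX : 0 < hm G X) (hfin : (f '' X).Finite) : (Set.range f).Finite := by
  classical
  -- the kernel has positive measure
  have hker : 0 < hm G (f.ker : Set G) := by
    by_contra h0
    have h0' : hm G (f.ker : Set G) = 0 := by simpa using h0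
    have h1 : ∀ a ∈ f '' X, hm G (f ⁻¹' {a}) = 0 := by
      rintro _ ⟨x, _, rfl⟩
      have h2 : (fun g => x⁻¹ * g) ⁻¹' (f.ker : Set G) = f ⁻¹' {f x} := by
        ext g
        simp only [Set.mem_preimage, SetLike.mem_coe, MonoidHom.mem_ker, map_mul, map_inv,
          Set.mem_singleton_iff]
        rw [inv_mul_eq_one, eq_comm]
      rw [← h2, measure_preimage_mul, h0']
    have h3 : X ⊆ ⋃ a ∈ f '' X, f ⁻¹' {a} := by
      intro x hx
      simp only [Set.mem_iUnion]
      exact ⟨f x, ⟨x, hx, rfl⟩, rfl⟩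
    have h4 : hm G X ≤ 0 := by
      refine (measure_mono h3).trans ?_
      rw [(measure_biUnion_null_iff hfin.countable).mpr h1]
    exact absurd hX (not_lt.mpr h4)
  by_contra hinf
  rw [Set.not_finite] at hinf
  -- infinitely many disjoint translates
  have hinf' := hinf.to_subtype
  let e : ℕ ↪ Set.range f := Infinite.natEmbedding _
  choose g hg using fun i : ℕ => (e i).2
  have hdisj : Pairwise (Function.onFun Disjoint fun i : ℕ => f ⁻¹' {f (g i)}) := by
    intro i j hij
    rw [Function.onFun, Set.disjoint_left]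
    intro x hx hx2
    apply hij
    apply e.injective
    apply Subtype.ext
    rw [← hg i, ← hg j]
    exact (Set.mem_singleton_iff.mp hx).symm.trans (Set.mem_singleton_iff.mp hx2)
  have hpre : ∀ i, f ⁻¹' {f (g i)} = (fun x => (g i)⁻¹ * x) ⁻¹' (f.ker : Set G) := by
    intro i
    ext x
    simp only [Set.mem_preimage, SetLike.mem_coe, MonoidHom.mem_ker, map_mul, map_inv,
      Set.mem_singleton_iff]
    rw [inv_mul_eq_one, eq_comm]
  have hmeas : ∀ i, MeasurableSet (f ⁻¹' {f (g i)}) := by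
    intro i
    rw [hpre i]
    exact (hf.preimage (continuous_const.mul continuous_id)).measurableSet
  have hsum := measure_iUnion (μ := hm G) hdisj hmeas
  have hval : ∀ i, hm G (f ⁻¹' {f (g i)}) = hm G (f.ker : Set G) := by
    intro i
    rw [hpre i, measure_preimage_mul]
  simp_rw [hval] at hsum
  rw [ENNReal.tsum_const_eq_top_of_ne_zero hker.ne'] at hsum
  exact (measure_lt_top (hm G) _).ne hsum

/-- the measure of a union of cosets of an open normal subgroup -/
theorem hm_cosets (U : Subgroup G) [U.Normal] (hU : IsOpen (U : Set G)) (Z : Set G) :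
    hm G ((QuotientGroup.mk : G → G ⧸ U) ⁻¹' ((QuotientGroup.mk : G → G ⧸ U) '' Z)) =
      ENNReal.ofReal ((((QuotientGroup.mk : G → G ⧸ U) '' Z).ncard : ℝ) / (Nat.card (G ⧸ U) : ℝ)) := by
  classical
  have hfi : Finite (G ⧸ U) := Subgroup.quotient_finite_of_isOpen U hU
  have : Fintype (G ⧸ U) := Fintype.ofFinite _
  have hcos : ∀ q : G ⧸ U, hm G ((QuotientGroup.mk : G → G ⧸ U) ⁻¹' {q}) = hm G (U : Set G) := by
    intro q
    obtain ⟨x, rfl⟩ := QuotientGroup.mk_surjective q
    have h2 : (fun g => x⁻¹ * g) ⁻¹' (U : Set G) = (QuotientGroup.mk : G → G ⧸ U) ⁻¹' {(x : G ⧸ U)} := by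
      ext g
      simp only [Set.mem_preimage, SetLike.mem_coe, Set.mem_singleton_iff]
      rw [eq_comm (a := (g : G ⧸ U)), QuotientGroup.eq]
    rw [← h2, measure_preimage_mul]
  have hcm : ∀ q : G ⧸ U, MeasurableSet ((QuotientGroup.mk : G → G ⧸ U) ⁻¹' {q}) := by
    intro q
    obtain ⟨x, rfl⟩ := QuotientGroup.mk_surjective q
    have h2 : (fun g => x⁻¹ * g) ⁻¹' (U : Set G) = (QuotientGroup.mk : G → G ⧸ U) ⁻¹' {(x : G ⧸ U)} := by
      ext g
      simp only [Set.mem_preimage, SetLike.mem_coe, Set.mem_singleton_iff]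
      rw [eq_comm (a := (g : G ⧸ U)), QuotientGroup.eq]
    rw [← h2]
    exact (hU.preimage (continuous_const.mul continuous_id)).measurableSet
  have hfin : ∀ T : Set (G ⧸ U), hm G ((QuotientGroup.mk : G → G ⧸ U) ⁻¹' T) =
      T.ncard * hm G (U : Set G) := by
    intro T
    have h1 : (QuotientGroup.mk : G → G ⧸ U) ⁻¹' T =
        ⋃ q ∈ T.toFinset, (QuotientGroup.mk : G → G ⧸ U) ⁻¹' {q} := by
      ext x
      simp
    rw [h1, measure_biUnion_finset]
    · simp_rw [hcos]
      rw [Finset.sum_const, nsmul_eq_mul, Set.ncard_eq_toFinset_card']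
    · intro a _ b _ hab
      rw [Function.onFun, Set.disjoint_left]
      intro x hx hx2
      exact hab ((Set.mem_singleton_iff.mp hx).symm.trans (Set.mem_singleton_iff.mp hx2))
    · intro q _
      exact hcm q
  have htot := hfin Set.univ
  rw [Set.preimage_univ, hm_univ, Set.ncard_univ] at htot
  rw [hfin]
  have hN : (Nat.card (G ⧸ U) : ENNReal) ≠ 0 := by exact_mod_cast Nat.card_pos.ne'
  have hN2 : (Nat.card (G ⧸ U) : ENNReal) ≠ ⊤ := ENNReal.natCast_ne_top _
  have hUv : hm G (U : Set G) = (Nat.card (G ⧸ U) : ENNReal)⁻¹ := by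
    rw [← ENNReal.eq_inv_of_mul_eq_one_left]
    rw [mul_comm]; exact htot.symm
  rw [hUv, ENNReal.ofReal_div_of_pos (by exact_mod_cast Nat.card_pos), ENNReal.ofReal_natCast,
    ENNReal.ofReal_natCast, div_eq_mul_inv]

variable [TotallyDisconnectedSpace G]

/-- lower bound for the measure of a closed set in terms of its images in finite quotients -/
theorem hm_closed {Z : Set G} (hZ : IsClosed Z) {δ : ℝ}
    (h : ∀ U : Subgroup G, [U.Normal] → IsOpen (U : Set G) →
      δ ≤ (((QuotientGroup.mk : G → G ⧸ U) '' Z).ncard : ℝ) / (Nat.card (G ⧸ U) : ℝ)) :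
    ENNReal.ofReal δ ≤ hm G Z := by
  refine le_of_forall_gt_imp_ge_of_dense fun c hc => ?_
  obtain ⟨O, hZO, hO, hOc⟩ := Set.exists_isOpen_lt_of_lt Z c hc
  obtain ⟨V, hV, hZV⟩ := compact_open_separated_mul_right hZ.isCompact hO hZO
  obtain ⟨W, hWV, hW, h1W⟩ := mem_nhds_iff.mp hV
  obtain ⟨U, hU⟩ := ProfiniteGrp.exist_openNormalSubgroup_sub_open_nhds_of_one hW h1W
  have hUo : IsOpen ((U : Subgroup G) : Set G) := U.isOpen'
  have h2 := h (U : Subgroup G) hUo
  have h3 := hm_cosets (U : Subgroup G) hUo Z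
  have h4 : ((QuotientGroup.mk : G → G ⧸ (U : Subgroup G)) ⁻¹'
      ((QuotientGroup.mk : G → G ⧸ (U : Subgroup G)) '' Z)) ⊆ O := by
    rintro x ⟨z, hz, hzx⟩
    refine hZV ⟨z, hz, z⁻¹ * x, hWV (hU ?_), by group⟩
    exact QuotientGroup.eq.mp hzx
  calc ENNReal.ofReal δ ≤ ENNReal.ofReal ((((QuotientGroup.mk : G → G ⧸ (U : Subgroup G)) '' Z).ncard : ℝ) /
        (Nat.card (G ⧸ (U : Subgroup G)) : ℝ)) := ENNReal.ofReal_le_ofReal h2
    _ = hm G _ := h3.symm
    _ ≤ hm G O := measure_mono h4
    _ ≤ c := hOc.le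

end haar

/-- **Finiteness theorem** for profinite groups: if the elements with trace in a finite set `Y` have
proportion at least `δ > 1 - 1/n²` in every finite quotient, then the image is finite. -/
theorem finite_of_traces {G : Type*} [Group G] [TopologicalSpace G] [IsTopologicalGroup G]
    [CompactSpace G] [TotallyDisconnectedSpace G] {E : Type*} [Field E] [TopologicalSpace E]
    [IsTopologicalRing E] [T2Space E] {n : ℕ} (hn : 0 < n)
    (hc : ∀ m : ℕ, 0 < m → m ≤ n → (m : E) ≠ 0) (ρ : G →* GL (Fin n) E)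
    (hcont : Continuous ρ) (hρ : Semis ρ) {Y : Set E} (hY : Y.Finite) {δ : ℝ}
    (hδ : 1 - 1 / (n : ℝ) ^ 2 < δ)
    (h : ∀ U : Subgroup G, [U.Normal] → IsOpen (U : Set G) →
      δ ≤ (((QuotientGroup.mk : G → G ⧸ U) ''
        {g | (ρ g : Matrix (Fin n) (Fin n) E).trace ∈ Y}).ncard : ℝ) / (Nat.card (G ⧸ U) : ℝ)) :
    (Set.range ρ).Finite := by
  classical
  let _ : MeasurableSpace G := borel G
  have _ : BorelSpace G := ⟨rfl⟩
  have htr : Continuous fun g => (ρ g : Matrix (Fin n) (Fin n) E).trace :=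
    (Continuous.matrix_trace continuous_id).comp (Units.continuous_val.comp hcont)
  have hZ : IsClosed {g | (ρ g : Matrix (Fin n) (Fin n) E).trace ∈ Y} := hY.isClosed.preimage htr
  have hμ := hm_closed hZ h
  obtain ⟨d, s, hd, hs⟩ := exists_sep hρ hc
  refine finite_range ρ ?_ (X := {g | ∀ i, (ρ (s i * g) : Matrix (Fin n) (Fin n) E).trace ∈ Y}) ?_
    (finite_image hs hY)
  · have : (ρ.ker : Set G) = (fun g => (ρ g : Matrix (Fin n) (Fin n) E)) ⁻¹' {1} := by
      ext g
      simp only [SetLike.mem_coe, MonoidHom.mem_ker, Set.mem_preimage, Set.mem_singleton_iff]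
      exact ⟨fun h => by rw [h]; rfl, fun h => Units.ext h⟩
    rw [this]
    exact isClosed_singleton.preimage (Units.continuous_val.comp hcont)
  · set Z := {g | (ρ g : Matrix (Fin n) (Fin n) E).trace ∈ Y} with hZdef
    have hcompl : hm G Zᶜ ≤ ENNReal.ofReal (1 - δ) := by
      rw [prob_compl_eq_one_sub hZ.measurableSet]
      refine (tsub_le_tsub_left hμ 1).trans ?_
      have hδ0 : 0 ≤ δ := by
        have h1 : 1 / (n : ℝ) ^ 2 ≤ 1 := by
          rw [div_le_one (by positivity)]
          have : (1 : ℝ) ≤ n := by exact_mod_cast hn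
          nlinarith
        linarith
      rw [ENNReal.ofReal_sub 1 hδ0, ENNReal.ofReal_one]
    have hXc : ({g | ∀ i, (ρ (s i * g) : Matrix (Fin n) (Fin n) E).trace ∈ Y} : Set G)ᶜ ⊆
        ⋃ i : Fin d, (fun g => s i * g) ⁻¹' Zᶜ := by
      intro g hg
      simp only [Set.mem_compl_iff, Set.mem_ofPred_eq, not_forall] at hg
      obtain ⟨i, hi⟩ := hg
      exact Set.mem_iUnion.mpr ⟨i, hi⟩
    have hXc2 : hm G ({g | ∀ i, (ρ (s i * g) : Matrix (Fin n) (Fin n) E).trace ∈ Y} : Set G)ᶜ ≤
        ∑ _i : Fin d, ENNReal.ofReal (1 - δ) := by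
      refine (measure_mono hXc).trans ((measure_iUnion_fintype_le _ _).trans ?_)
      refine Finset.sum_le_sum fun i _ => ?_
      rw [measure_preimage_mul]
      exact hcompl
    have hlt : (∑ _i : Fin d, ENNReal.ofReal (1 - δ)) < 1 := by
      rw [Finset.sum_const, Finset.card_univ, Fintype.card_fin, nsmul_eq_mul,
        ← ENNReal.ofReal_natCast, ← ENNReal.ofReal_mul (Nat.cast_nonneg _)]
      rw [ENNReal.ofReal_lt_one]
      have hn0 : (0 : ℝ) < (n : ℝ) ^ 2 := by positivity
      have hd' : (d : ℝ) ≤ (n : ℝ) ^ 2 := by exact_mod_cast hd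
      by_cases h1 : 1 - δ ≤ 0
      · have := mul_nonpos_of_nonneg_of_nonpos (Nat.cast_nonneg (α := ℝ) d) h1
        linarith
      · push Not at h1
        have h2 : 1 - δ < 1 / (n : ℝ) ^ 2 := by linarith
        calc (d : ℝ) * (1 - δ) ≤ (n : ℝ) ^ 2 * (1 - δ) := by gcongr
          _ < (n : ℝ) ^ 2 * (1 / (n : ℝ) ^ 2) := by gcongr
          _ = 1 := by field_simp
    by_contra h0
    have h0' : hm G {g | ∀ i, (ρ (s i * g) : Matrix (Fin n) (Fin n) E).trace ∈ Y} = 0 := by simpa using h0
    have h1 : (1 : ENNReal) ≤ hm G {g | ∀ i, (ρ (s i * g) : Matrix (Fin n) (Fin n) E).trace ∈ Y} +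
        hm G ({g | ∀ i, (ρ (s i * g) : Matrix (Fin n) (Fin n) E).trace ∈ Y} : Set G)ᶜ := by
      rw [← hm_univ (G := G)]
      exact measure_univ_le_add_compl _
    rw [h0', zero_add] at h1
    exact absurd (h1.trans hXc2) (not_le.mpr hlt)

end Pool.Agent.W401.Gal
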